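import Mathlib

/-!
# Part O: the average of the off-diagonal over primes in a short window. Definitions.

Everything is stated for a general coefficient function `C`, a general kernel `G`, a finite set `S`
of nonzero integers; `Q` bounds the support of `C`.
-/

set_option autoImplicit false

namespace Pool.Agent.LSPO

/-- the Lipschitz hyperbola cut, `hyp y + hyp (-y) = 1` -/
noncomputable def hyp (y : ℝ) : ℝ := max 0 (min 1 (1 / 2 - y))

/-- a Lipschitz cut around `u = 1` -/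
noncomputable def cl (om u : ℝ) : ℝ := max 0 (min 1 (|1 - u| / om - 1))

/-- the kernel with the cut -/
noncomputable def KK (G : ℝ → ℝ) (om u : ℝ) : ℝ := G u * cl om u

/-- the number of divisors -/
noncomputable def tau (n : ℕ) : ℝ := (n.divisors.card : ℝ)

/-- the off-diagonal of level `N` -/
noncomputable def ODg (C : ℕ → ℝ) (G : ℝ → ℝ) (Q : ℕ) (S : Finset ℤ) (N : ℕ) : ℝ :=
  2 * Real.pi * ∑ n ∈ Finset.Icc 1 Q, C n *
    ∑ g ∈ S, tau g.natAbs * tau ((n : ℤ) - g * N).natAbs * G ((g : ℝ) * N / n)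

/-- the probability that `d` divides `n - g N` for a random unit `N`: `1/φ(d/(d,g))` if
`(d, n) = (d, g)`, and `0` otherwise -/
noncomputable def rho (d n : ℕ) (g : ℤ) : ℝ :=
  if Nat.gcd d n = Nat.gcd d g.natAbs then 1 / (Nat.totient (d / Nat.gcd d g.natAbs) : ℝ) else 0

/-- the principal part at the real centre `Z` -/
noncomputable def b1 (C : ℕ → ℝ) (G : ℝ → ℝ) (Q : ℕ) (S : Finset ℤ) (Dl : ℕ) (om Z : ℝ) : ℝ :=
  4 * Real.pi * ∑ n ∈ Finset.Icc 1 Q, C n * ∑ g ∈ S, tau g.natAbs *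
    (KK G om ((g : ℝ) * Z / n) * ∑ d ∈ Finset.Icc 1 Dl,
      rho d n g * hyp (Real.log d - Real.log |(n : ℝ) - g * Z| / 2))

/-- the properties of the kernel used here -/
structure GOK (G : ℝ → ℝ) (U c : ℝ) : Prop where
  one_le : 1 ≤ U
  one_le' : 1 ≤ c
  supp : ∀ u, U < |u| → G u = 0
  bd : ∀ u, u ≠ 0 → u ≠ 1 → |G u| ≤ c * (1 + |Real.log (|u|)| + |Real.log (|1 - u|)|)
  lip : ∀ u v, u ≠ 0 → u ≠ 1 → v ≠ 0 → v ≠ 1 → |G u - G v| ≤
    c * |u - v| * (|u|⁻¹ + |1 - u|⁻¹ + |v|⁻¹ + |1 - v|⁻¹) ^ 3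

end Pool.Agent.LSPO
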