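import Pool.Agent.Lib_helper31.LSP.Hyp

/-! Part O: the cut kernel is Lipschitz -/

set_option autoImplicit false

namespace Pool.Agent.LSPO

open Finset

theorem log_sub_le {x y m : ℝ} (hm : 0 < m) (hx : m ≤ x) (hy : m ≤ y) :
    |Real.log x - Real.log y| ≤ |x - y| / m := by
  have key : ∀ x y : ℝ, m ≤ x → m ≤ y → Real.log x - Real.log y ≤ |x - y| / m := by
    intro x y hx hy
    have hx0 : 0 < x := hm.trans_le hx
    have hy0 : 0 < y := hm.trans_le hy
    rw [← Real.log_div hx0.ne' hy0.ne']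
    have h1 := Real.log_le_sub_one_of_pos (div_pos hx0 hy0)
    refine h1.trans ?_
    have h2 : x / y - 1 = (x - y) / y := by field_simp
    rw [h2]
    calc (x - y) / y ≤ |x - y| / y := div_le_div_of_nonneg_right (le_abs_self _) hy0.le
      _ ≤ |x - y| / m := div_le_div_of_nonneg_left (abs_nonneg _) hm hy
  rw [abs_le]
  constructor
  · have := key y x hy hx
    rw [abs_sub_comm] at this
    linarith
  · exact key x y hx hy

theorem G_bound {G : ℝ → ℝ} {U c : ℝ} (hG : GOK G U c) {a om : ℝ} (ha : 0 < a) (ha1 : a ≤ 1)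
    (hom : 0 < om) (hom1 : om ≤ 1) {v : ℝ} (h1 : a ≤ |v|) (h2 : om ≤ |1 - v|) :
    |G v| ≤ c * (1 - Real.log a - Real.log om + 2 * Real.log (1 + U)) := by
  have hU := hG.one_le
  have hc := hG.one_le'
  have hla : Real.log a ≤ 0 := Real.log_nonpos ha.le ha1
  have hlo : Real.log om ≤ 0 := Real.log_nonpos hom.le hom1
  have hlU : 0 ≤ Real.log (1 + U) := Real.log_nonneg (by linarith)
  by_cases hv : U < |v|
  · rw [hG.supp v hv, abs_zero]
    have : 0 ≤ 1 - Real.log a - Real.log om + 2 * Real.log (1 + U) := by linarith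
    positivity
  push Not at hv
  have hv0 : v ≠ 0 := by
    intro h
    rw [h, abs_zero] at h1
    linarith
  have hv1 : v ≠ 1 := by
    intro h
    rw [h, sub_self, abs_zero] at h2
    linarith
  refine (hG.bd v hv0 hv1).trans ?_
  refine mul_le_mul_of_nonneg_left ?_ (by linarith)
  have e1 : |Real.log (|v|)| ≤ -Real.log a + Real.log (1 + U) := by
    rw [abs_le]
    have f1 := Real.log_le_log ha h1
    have f2 : Real.log |v| ≤ Real.log (1 + U) :=
      Real.log_le_log (ha.trans_le h1) (by linarith)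
    constructor <;> linarith
  have e2 : |Real.log (|1 - v|)| ≤ -Real.log om + Real.log (1 + U) := by
    rw [abs_le]
    have f1 := Real.log_le_log hom h2
    have f3 : |1 - v| ≤ 1 + U := by
      calc |1 - v| ≤ |(1 : ℝ)| + |v| := abs_sub _ _
        _ ≤ 1 + U := by rw [abs_one]; linarith
    have f2 : Real.log |1 - v| ≤ Real.log (1 + U) :=
      Real.log_le_log (hom.trans_le h2) f3
    constructor <;> linarith
  linarith

/-- the basic Lipschitz estimate -/
theorem Psi_lip {G : ℝ → ℝ} {U c : ℝ} (hG : GOK G U c) {a om M : ℝ} (ha : 0 < a)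
    (hom : 0 < om) (hM0 : 0 ≤ M)
    (hM : ∀ v : ℝ, a ≤ |v| → om / 2 ≤ |1 - v| → |G v| ≤ M) {u v l l' : ℝ} (hu : a ≤ |u|)
    (hv : a ≤ |v|) (huv : |u - v| ≤ om / 2) :
    |KK G om u * hyp (l - Real.log |1 - u| / 2) - KK G om v * hyp (l' - Real.log |1 - v| / 2)| ≤
      (c * (2 / a + 4 / om) ^ 3 + 2 * M / om) * |u - v| + M * |l - l'| := by
  have hc := hG.one_le'
  have hR : 0 ≤ (c * (2 / a + 4 / om) ^ 3 + 2 * M / om) * |u - v| + M * |l - l'| := by
    positivity
  by_cases hcase : |1 - u| ≤ om ∧ |1 - v| ≤ om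
  · unfold KK
    rw [cl_eq_zero hom hcase.1, cl_eq_zero hom hcase.2]
    simpa using hR
  have hnear : |(|1 - u| - |1 - v|)| ≤ |u - v| := by
    refine (abs_abs_sub_abs_le_abs_sub _ _).trans (le_of_eq ?_)
    rw [show (1 - u - (1 - v) : ℝ) = -(u - v) by ring, abs_neg]
  rw [abs_le] at hnear
  have h1u : om / 2 ≤ |1 - u| := by
    by_contra hh
    push Not at hh
    exact hcase ⟨by linarith, by linarith [hnear.1]⟩
  have h1v : om / 2 ≤ |1 - v| := by
    by_contra hh
    push Not at hh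
    exact hcase ⟨by linarith [hnear.2], by linarith⟩
  have hom2 : 0 < om / 2 := by positivity
  have hu0 : u ≠ 0 := by
    intro h
    rw [h, abs_zero] at hu
    linarith
  have hu1 : u ≠ 1 := by
    intro h
    rw [h, sub_self, abs_zero] at h1u
    linarith
  have hv0 : v ≠ 0 := by
    intro h
    rw [h, abs_zero] at hv
    linarith
  have hv1 : v ≠ 1 := by
    intro h
    rw [h, sub_self, abs_zero] at h1v
    linarith
  have e1 : |G u - G v| ≤ c * (2 / a + 4 / om) ^ 3 * |u - v| := by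
    refine (hG.lip u v hu0 hu1 hv0 hv1).trans ?_
    have f1 : |u|⁻¹ ≤ 1 / a := by
      rw [inv_eq_one_div]
      exact one_div_le_one_div_of_le ha hu
    have f2 : |v|⁻¹ ≤ 1 / a := by
      rw [inv_eq_one_div]
      exact one_div_le_one_div_of_le ha hv
    have f3 : |1 - u|⁻¹ ≤ 2 / om := by
      rw [inv_eq_one_div]
      calc 1 / |1 - u| ≤ 1 / (om / 2) := one_div_le_one_div_of_le hom2 h1u
        _ = 2 / om := by field_simp
    have f4 : |1 - v|⁻¹ ≤ 2 / om := by
      rw [inv_eq_one_div]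
      calc 1 / |1 - v| ≤ 1 / (om / 2) := one_div_le_one_div_of_le hom2 h1v
        _ = 2 / om := by field_simp
    have f5 : |u|⁻¹ + |1 - u|⁻¹ + |v|⁻¹ + |1 - v|⁻¹ ≤ 2 / a + 4 / om := by
      have g1 : (2 : ℝ) / a = 1 / a + 1 / a := by ring
      have g2 : (4 : ℝ) / om = 2 / om + 2 / om := by ring
      linarith
    have f6 : 0 ≤ |u|⁻¹ + |1 - u|⁻¹ + |v|⁻¹ + |1 - v|⁻¹ := by positivity
    calc c * |u - v| * (|u|⁻¹ + |1 - u|⁻¹ + |v|⁻¹ + |1 - v|⁻¹) ^ 3
        ≤ c * |u - v| * (2 / a + 4 / om) ^ 3 := by gcongr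
      _ = c * (2 / a + 4 / om) ^ 3 * |u - v| := by ring
  have e2 : |G v| ≤ M := hM v hv h1v
  have e3 : |KK G om u - KK G om v| ≤ c * (2 / a + 4 / om) ^ 3 * |u - v| + M * (|u - v| / om) := by
    have f1 : KK G om u - KK G om v = (G u - G v) * cl om u + G v * (cl om u - cl om v) := by
      unfold KK; ring
    rw [f1]
    refine (abs_add_le _ _).trans ?_
    rw [abs_mul, abs_mul, abs_of_nonneg (cl_nonneg om u)]
    refine add_le_add ?_ ?_
    · calc |G u - G v| * cl om u ≤ |G u - G v| * 1 :=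
            mul_le_mul_of_nonneg_left (cl_le_one _ _) (abs_nonneg _)
        _ ≤ _ := by rw [mul_one]; exact e1
    · exact mul_le_mul e2 (cl_lip hom u v) (abs_nonneg _) hM0
  have e4 : |KK G om v| ≤ M := by
    unfold KK
    rw [abs_mul, abs_of_nonneg (cl_nonneg om v)]
    calc |G v| * cl om v ≤ |G v| * 1 := mul_le_mul_of_nonneg_left (cl_le_one _ _) (abs_nonneg _)
      _ ≤ M := by rw [mul_one]; exact e2
  have e5 : |hyp (l - Real.log |1 - u| / 2) - hyp (l' - Real.log |1 - v| / 2)| ≤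
      |l - l'| + |u - v| / om := by
    refine (hyp_lip _ _).trans ?_
    have f1 : l - Real.log |1 - u| / 2 - (l' - Real.log |1 - v| / 2) =
        (l - l') - (Real.log |1 - u| - Real.log |1 - v|) / 2 := by ring
    rw [f1]
    refine (abs_sub _ _).trans ?_
    have f2 := log_sub_le hom2 h1u h1v
    have f3 : |(|1 - u| - |1 - v|)| ≤ |u - v| := abs_le.2 hnear
    rw [abs_div, abs_of_pos (by norm_num : (0 : ℝ) < 2)]
    have f4 : |(|1 - u| - |1 - v|)| / (om / 2) ≤ |u - v| / (om / 2) :=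
      div_le_div_of_nonneg_right f3 hom2.le
    have f5 : |u - v| / (om / 2) = 2 * (|u - v| / om) := by field_simp
    linarith
  have f1 : KK G om u * hyp (l - Real.log |1 - u| / 2) -
      KK G om v * hyp (l' - Real.log |1 - v| / 2) =
      (KK G om u - KK G om v) * hyp (l - Real.log |1 - u| / 2) +
      KK G om v * (hyp (l - Real.log |1 - u| / 2) - hyp (l' - Real.log |1 - v| / 2)) := by ring
  rw [f1]
  refine (abs_add_le _ _).trans ?_
  rw [abs_mul, abs_mul, abs_of_nonneg (hyp_nonneg _)]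
  have g1 : |KK G om u - KK G om v| * hyp (l - Real.log |1 - u| / 2) ≤
      c * (2 / a + 4 / om) ^ 3 * |u - v| + M * (|u - v| / om) :=
    (mul_le_of_le_one_right (abs_nonneg _) (hyp_le_one _)).trans e3
  have g2 : |KK G om v| * |hyp (l - Real.log |1 - u| / 2) - hyp (l' - Real.log |1 - v| / 2)| ≤
      M * (|l - l'| + |u - v| / om) := mul_le_mul e4 e5 (abs_nonneg _) hM0
  have g3 : (c * (2 / a + 4 / om) ^ 3 + 2 * M / om) * |u - v| + M * |l - l'| =
      (c * (2 / a + 4 / om) ^ 3 * |u - v| + M * (|u - v| / om)) +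
        M * (|l - l'| + |u - v| / om) := by ring
  linarith

end Pool.Agent.LSPO
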