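import Pool.Agent.Lib_helper73.Var.Block

/-! Part O: the large conductors, by the large sieve -/

set_option autoImplicit false

namespace Pool.Agent.LSPO

open Finset Complex DirichletCharacter Pool.Agent.Var73 Pool.Agent.Var35

/-- Cauchy-Schwarz and the large sieve for a fixed cofactor `m` -/
theorem ls_fixed (DD : Finset ℕ) (D R : ℕ) (hD : ∀ d ∈ DD, R < d ∧ d ≤ D) (hD1 : 1 ≤ D)
    (hR : 1 ≤ R) (a b : ℕ → ℂ) (H1 H2 m : ℕ) :
    ∑ d ∈ DD, ∑ ψ ∈ Pr d, (1 / (Nat.totient d : ℝ)) *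
        (‖SS (Finset.Ioc 0 H1) b m ⟨d, ψ⟩‖ * ‖SS (Finset.Ioc 0 H2) a m ⟨d, ψ⟩‖)
      ≤ 22 / R * (Real.sqrt ((H1 + (D:ℝ) ^ 2) * ∑ n ∈ Finset.Ioc 0 H1, ‖b n‖ ^ 2) *
          Real.sqrt ((H2 + (D:ℝ) ^ 2) * ∑ n ∈ Finset.Ioc 0 H2, ‖a n‖ ^ 2)) := by
  set SA := ∑ n ∈ Finset.Ioc 0 H2, ‖a n‖ ^ 2 with hSA
  set SB := ∑ n ∈ Finset.Ioc 0 H1, ‖b n‖ ^ 2 with hSB
  have hSA0 : 0 ≤ SA := sum_nonneg fun _ _ => by positivity
  have hSB0 : 0 ≤ SB := sum_nonneg fun _ _ => by positivity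
  have hDD : ∀ d ∈ DD, 1 ≤ d ∧ d ≤ D := fun d hd => ⟨by have := (hD d hd).1; omega, (hD d hd).2⟩
  have key : ∀ (a : ℕ → ℂ) (H : ℕ), ∑ x ∈ DD.sigma Pr,
      (Real.sqrt ((x.1:ℝ) / Nat.totient x.1) * ‖SS (Finset.Ioc 0 H) a m x‖) ^ 2
      ≤ 22 * ((H + (D:ℝ) ^ 2) * ∑ n ∈ Finset.Ioc 0 H, ‖a n‖ ^ 2) := by
    intro a H
    have h := mlsP DD D hDD hD1 (fun n => if Nat.Coprime n m then a n else 0) 0 H
    rw [zero_add] at h
    rw [sum_sigma]
    have h2 : ∑ n ∈ Finset.Ioc 0 H, ‖(if Nat.Coprime n m then a n else 0 : ℂ)‖ ^ 2 ≤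
        ∑ n ∈ Finset.Ioc 0 H, ‖a n‖ ^ 2 := by
      refine sum_le_sum fun n _ => ?_
      split_ifs
      · exact le_rfl
      · simp
    have h3 : 22 * (H + (D:ℝ) ^ 2) * ∑ n ∈ Finset.Ioc 0 H,
        ‖(if Nat.Coprime n m then a n else 0 : ℂ)‖ ^ 2 ≤
        22 * ((H + (D:ℝ) ^ 2) * ∑ n ∈ Finset.Ioc 0 H, ‖a n‖ ^ 2) := by
      rw [mul_assoc]
      gcongr
    refine le_trans (le_of_eq ?_) (h.trans h3)
    refine sum_congr rfl fun d _ => sum_congr rfl fun ψ _ => ?_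
    rw [mul_pow, Real.sq_sqrt (by positivity)]
    rfl
  have hR0 : (0:ℝ) < R := by exact_mod_cast hR
  have h1 : ∑ d ∈ DD, ∑ ψ ∈ Pr d, (1 / (Nat.totient d : ℝ)) *
        (‖SS (Finset.Ioc 0 H1) b m ⟨d, ψ⟩‖ * ‖SS (Finset.Ioc 0 H2) a m ⟨d, ψ⟩‖)
      ≤ (1 / (R:ℝ)) * ∑ x ∈ DD.sigma Pr,
          (Real.sqrt ((x.1:ℝ) / Nat.totient x.1) * ‖SS (Finset.Ioc 0 H1) b m x‖)
          * (Real.sqrt ((x.1:ℝ) / Nat.totient x.1) * ‖SS (Finset.Ioc 0 H2) a m x‖) := by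
    rw [mul_sum, sum_sigma]
    refine sum_le_sum fun d hd => sum_le_sum fun ψ _ => ?_
    simp only
    have hd1 := (hDD d hd).1
    have hd0 : (0:ℝ) < d := by exact_mod_cast hd1
    have hφ : (0:ℝ) < Nat.totient d := by exact_mod_cast Nat.totient_pos.mpr hd1
    set A := ‖SS (Finset.Ioc 0 H2) a m ⟨d, ψ⟩‖
    set B := ‖SS (Finset.Ioc 0 H1) b m ⟨d, ψ⟩‖
    have hA : 0 ≤ A := norm_nonneg _
    have hB : 0 ≤ B := norm_nonneg _
    have e1 : Real.sqrt ((d:ℝ) / Nat.totient d) * B * (Real.sqrt ((d:ℝ) / Nat.totient d) * A) =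
        ((d:ℝ) / Nat.totient d) * (B * A) := by
      have := Real.mul_self_sqrt (by positivity : 0 ≤ (d:ℝ) / Nat.totient d)
      calc _ = (Real.sqrt ((d:ℝ) / Nat.totient d) * Real.sqrt ((d:ℝ) / Nat.totient d)) *
              (B * A) := by ring
        _ = _ := by rw [this]
    rw [e1]
    have hdR : (R:ℝ) ≤ d := by exact_mod_cast (hD d hd).1.le
    have e3 : 1 / (Nat.totient d : ℝ) ≤ 1 / (R:ℝ) * ((d:ℝ) / Nat.totient d) := by
      rw [div_mul_div_comm, one_mul, div_le_div_iff₀ hφ (by positivity)]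
      nlinarith
    calc 1 / (Nat.totient d : ℝ) * (B * A) ≤ (1 / (R:ℝ) * ((d:ℝ) / Nat.totient d)) * (B * A) :=
          mul_le_mul_of_nonneg_right e3 (by positivity)
      _ = _ := by ring
  refine h1.trans ?_
  have h2 := Real.sum_mul_le_sqrt_mul_sqrt (DD.sigma Pr)
    (fun x => Real.sqrt ((x.1:ℝ) / Nat.totient x.1) * ‖SS (Finset.Ioc 0 H1) b m x‖)
    (fun x => Real.sqrt ((x.1:ℝ) / Nat.totient x.1) * ‖SS (Finset.Ioc 0 H2) a m x‖)
  have e1 := Real.sqrt_le_sqrt (key b H1)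
  have e2 := Real.sqrt_le_sqrt (key a H2)
  have h3 := h2.trans (mul_le_mul e1 e2 (Real.sqrt_nonneg _) (Real.sqrt_nonneg _))
  rw [Real.sqrt_mul (by norm_num : (0:ℝ) ≤ 22) ((H1 + (D:ℝ) ^ 2) * ∑ n ∈ Finset.Ioc 0 H1, ‖b n‖ ^ 2),
    Real.sqrt_mul (by norm_num : (0:ℝ) ≤ 22)
      ((H2 + (D:ℝ) ^ 2) * ∑ n ∈ Finset.Ioc 0 H2, ‖a n‖ ^ 2)] at h3
  have h22 : Real.sqrt 22 * Real.sqrt 22 = 22 := Real.mul_self_sqrt (by norm_num)
  calc (1 / (R:ℝ)) * _ ≤ (1 / (R:ℝ)) * (Real.sqrt 22 * Real.sqrt ((H1 + (D:ℝ) ^ 2) * SB) *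
        (Real.sqrt 22 * Real.sqrt ((H2 + (D:ℝ) ^ 2) * SA))) :=
        mul_le_mul_of_nonneg_left h3 (by positivity)
    _ = (1 / (R:ℝ)) * ((Real.sqrt 22 * Real.sqrt 22) * (Real.sqrt ((H1 + (D:ℝ) ^ 2) * SB) *
        Real.sqrt ((H2 + (D:ℝ) ^ 2) * SA))) := by ring
    _ = _ := by rw [h22]; ring

open scoped Classical in
/-- the large conductors; the small ones do not contribute by hypothesis -/
theorem ls_bound (D R H1 H2 : ℕ) (hD : 1 ≤ D) (hR : 1 ≤ R) (a b : ℕ → ℂ)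
    (hb : ∀ n, b n ≠ 0 → ∀ d ∈ Finset.Icc 1 D, Nat.Coprime n d)
    (hv : ∀ d, 1 < d → d ≤ R → ∀ ψ ∈ Pr d, ∑ n ∈ Finset.Ioc 0 H1, b n * ψ (n : ZMod d) = 0) :
    ∑ r ∈ Finset.Icc 1 D, (1 / (Nat.totient r : ℝ)) *
        ∑ χ ∈ (univ : Finset (DirichletCharacter ℂ r)).filter (fun χ => χ ≠ 1),
          ‖∑ n ∈ Finset.Ioc 0 H1, b n * χ (n : ZMod r)‖ *
            ‖∑ n ∈ Finset.Ioc 0 H2, a n * χ (n : ZMod r)‖ ≤
      22 / R * (∑ m ∈ Finset.Icc 1 D, 1 / (Nat.totient m : ℝ)) *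
        (Real.sqrt ((H1 + (D:ℝ) ^ 2) * ∑ n ∈ Finset.Ioc 0 H1, ‖b n‖ ^ 2) *
          Real.sqrt ((H2 + (D:ℝ) ^ 2) * ∑ n ∈ Finset.Ioc 0 H2, ‖a n‖ ^ 2)) := by
  set G : ℕ → Chr → ℝ := fun m x => if R < x.1 then (1 / (Nat.totient x.1 : ℝ)) *
      (1 / (Nat.totient m : ℝ)) * (‖SS (Finset.Ioc 0 H1) b m x‖ * ‖SS (Finset.Ioc 0 H2) a m x‖)
      else 0 with hG
  have hSS : ∀ m ∈ Finset.Icc 1 D, ∀ x : Chr, SS (Finset.Ioc 0 H1) b m x =
      ∑ n ∈ Finset.Ioc 0 H1, b n * x.2 (n : ZMod x.1) := by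
    intro m hm x
    unfold SS
    refine sum_congr rfl fun n _ => ?_
    by_cases h0 : b n = 0
    · simp [h0]
    · rw [if_pos (hb n h0 m hm)]
      rfl
  have h1 : ∀ r ∈ Finset.Icc 1 D, (1 / (Nat.totient r : ℝ)) *
        ∑ χ ∈ (univ : Finset (DirichletCharacter ℂ r)).filter (fun χ => χ ≠ 1),
          ‖∑ n ∈ Finset.Ioc 0 H1, b n * χ (n : ZMod r)‖ *
            ‖∑ n ∈ Finset.Ioc 0 H2, a n * χ (n : ZMod r)‖ ≤
      ∑ χ : DirichletCharacter ℂ r, G (r / (prm χ).1) (prm χ) := by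
    intro r hr
    rw [Finset.mem_Icc] at hr
    have hr0 : r ≠ 0 := by omega
    have : NeZero r := ⟨hr0⟩
    rw [sum_filter, mul_sum]
    refine sum_le_sum fun χ _ => ?_
    have e1 : (prm χ).1 = χ.conductor := rfl
    have hdm : χ.conductor * (r / χ.conductor) = r := Nat.mul_div_cancel' χ.conductor_dvd_level
    have hc0 : 0 < χ.conductor := Nat.pos_of_ne_zero (conductor_ne_zero χ)
    have hm0 : 0 < r / χ.conductor :=
      Nat.pos_of_ne_zero (fun h => hr0 (by rw [← hdm, h, mul_zero]))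
    have hmD : r / χ.conductor ∈ Finset.Icc 1 D :=
      Finset.mem_Icc.2 ⟨hm0, (Nat.div_le_self _ _).trans hr.2⟩
    have hpos1 : (0:ℝ) < Nat.totient χ.conductor := by exact_mod_cast Nat.totient_pos.mpr hc0
    have hpos2 : (0:ℝ) < Nat.totient (r / χ.conductor) := by
      exact_mod_cast Nat.totient_pos.mpr hm0
    by_cases hχ : χ ≠ 1
    swap
    · rw [if_neg hχ, mul_zero]
      simp only [hG]
      split_ifs
      · positivity
      · exact le_rfl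
    rw [if_pos hχ]
    simp only [hG]
    rw [sum_char_prm χ (Finset.Ioc 0 H1) b, sum_char_prm χ (Finset.Ioc 0 H2) a, e1]
    by_cases hc : R < χ.conductor
    · rw [if_pos hc, mul_assoc, ← mul_assoc (1 / (Nat.totient χ.conductor : ℝ))]
      refine mul_le_mul_of_nonneg_right ?_ (by positivity)
      rw [div_mul_div_comm, one_mul]
      refine one_div_le_one_div_of_le (by positivity) ?_
      have h3 := Nat.totient_super_multiplicative χ.conductor (r / χ.conductor)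
      rw [hdm] at h3
      exact_mod_cast h3
    · rw [if_neg hc]
      have h3 : SS (Finset.Ioc 0 H1) b (r / χ.conductor) (prm χ) = 0 := by
        rw [hSS _ hmD]
        refine hv _ ?_ ?_ _ ?_
        · rw [e1]
          rcases Nat.lt_or_ge 1 χ.conductor with h | h
          · exact h
          · exfalso
            apply hχ
            have h4 : χ.conductor = 1 := by omega
            exact eq_one_iff_conductor_eq_one.2 h4
        · rw [e1]; omega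
        · rw [mem_Pr]
          exact primitiveCharacter_isPrimitive χ
      rw [h3]
      simp
  refine (sum_le_sum h1).trans ?_
  rw [block_reorg (Finset.Icc 1 D) D (fun r hr => Finset.mem_Icc.1 hr) G]
  have h2 : ∀ m ∈ Finset.Icc 1 D, ∑ d ∈ (Finset.Icc 1 D).filter (fun d => d * m ∈ Finset.Icc 1 D),
      ∑ ψ ∈ Pr d, G m ⟨d, ψ⟩ ≤ (1 / (Nat.totient m : ℝ)) * (22 / R *
        (Real.sqrt ((H1 + (D:ℝ) ^ 2) * ∑ n ∈ Finset.Ioc 0 H1, ‖b n‖ ^ 2) *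
          Real.sqrt ((H2 + (D:ℝ) ^ 2) * ∑ n ∈ Finset.Ioc 0 H2, ‖a n‖ ^ 2))) := by
    intro m hm
    have h3 := ls_fixed (((Finset.Icc 1 D).filter (fun d => d * m ∈ Finset.Icc 1 D)).filter
      (fun d => R < d)) D R (fun d hd => by
        simp only [mem_filter, Finset.mem_Icc] at hd
        exact ⟨hd.2, hd.1.1.2⟩) hD hR a b H1 H2 m
    have h4 := mul_le_mul_of_nonneg_left h3 (by positivity : (0:ℝ) ≤ 1 / (Nat.totient m : ℝ))
    refine le_trans (le_of_eq ?_) h4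
    rw [mul_sum, sum_filter (fun d => R < d)]
    refine sum_congr rfl fun d _ => ?_
    simp only [hG]
    split_ifs with hc
    · rw [mul_sum]
      refine sum_congr rfl fun ψ _ => ?_
      ring
    · simp
  refine (sum_le_sum h2).trans (le_of_eq ?_)
  rw [← sum_mul]
  ring

end Pool.Agent.LSPO
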