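import Pool.Agent.Lib_helper31.LSP.Exp
import Pool.Agent.Lib_helper31.LSP.LSV

/-! Part O: the weighted average of the frozen off-diagonal -/

set_option autoImplicit false

namespace Pool.Agent.LSPO

open Finset Complex DirichletCharacter Pool.Agent.Var73 Pool.Agent.Var35

/-- the weighted prime sum -/
noncomputable def Bx (P : Finset ℕ) (b : ℕ → ℝ) {r : ℕ} (χ : DirichletCharacter ℂ r) : ℂ :=
  ∑ p ∈ P, (b p : ℂ) * χ (p : ZMod r)

open scoped Classical in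
theorem avg_fixed {n : ℕ} {g : ℤ} (hg : g ≠ 0) {Dl : ℕ} (P : Finset ℕ) (b : ℕ → ℝ)
    (hb : ∑ p ∈ P, b p = 1) (hP : ∀ p ∈ P, ∀ d ∈ Finset.Icc 1 Dl, Nat.Coprime p d) (F : ℕ → ℂ) :
    ∑ p ∈ P, (b p : ℂ) *
        ∑ d ∈ (Finset.Icc 1 Dl).filter (fun d : ℕ => (d : ℤ) ∣ (n : ℤ) - g * p), F d -
      ∑ d ∈ Finset.Icc 1 Dl, (rho d n g : ℂ) * F d =
      ∑ h ∈ g.natAbs.divisors, ∑ r ∈ Finset.Icc 1 (Dl / h), 1 / (Nat.totient r : ℂ) *
        ∑ χ ∈ (univ : Finset (DirichletCharacter ℂ r)).filter (fun χ => χ ≠ 1),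
          (starRingEnd ℂ) (χ ((g / h : ℤ) : ZMod r)) * (starRingEnd ℂ) (Bx P b χ) *
            (if h ∣ n then χ ((n / h : ℕ) : ZMod r) * F (h * r) else 0) := by
  have h1 : ∑ p ∈ P, (b p : ℂ) *
        ∑ d ∈ (Finset.Icc 1 Dl).filter (fun d : ℕ => (d : ℤ) ∣ (n : ℤ) - g * p), F d =
      ∑ h ∈ g.natAbs.divisors.filter (fun h => h ∣ n), ∑ r ∈ Finset.Icc 1 (Dl / h),
        1 / (Nat.totient r : ℂ) * ∑ χ : DirichletCharacter ℂ r,
          (starRingEnd ℂ) (χ ((g / h : ℤ) : ZMod r)) * (starRingEnd ℂ) (Bx P b χ) *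
            (χ ((n / h : ℕ) : ZMod r) * F (h * r)) := by
    rw [Finset.sum_congr rfl (fun p hp => by rw [expand1 hg (hP p hp) F])]
    simp only [Finset.mul_sum]
    rw [Finset.sum_comm]
    refine Finset.sum_congr rfl fun h _ => ?_
    rw [Finset.sum_comm]
    refine Finset.sum_congr rfl fun r _ => ?_
    rw [Finset.sum_comm]
    refine Finset.sum_congr rfl fun χ _ => ?_
    have e1 : (starRingEnd ℂ) (Bx P b χ) =
        ∑ p ∈ P, (b p : ℂ) * (starRingEnd ℂ) (χ (p : ZMod r)) := by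
      unfold Bx
      rw [map_sum]
      refine Finset.sum_congr rfl fun p _ => ?_
      rw [map_mul, Complex.conj_ofReal]
    rw [e1, Finset.mul_sum, Finset.sum_mul, Finset.mul_sum]
    refine Finset.sum_congr rfl fun p _ => ?_
    ring
  rw [h1, expand2 hg F, ← Finset.sum_sub_distrib, Finset.sum_filter]
  refine Finset.sum_congr rfl fun h hh => ?_
  rw [Nat.mem_divisors] at hh
  by_cases hn : h ∣ n
  · rw [if_pos hn, ← Finset.sum_sub_distrib]
    refine Finset.sum_congr rfl fun r hr => ?_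
    rw [Finset.mem_Icc] at hr
    have hrD : r ∈ Finset.Icc 1 Dl :=
      Finset.mem_Icc.2 ⟨hr.1, hr.2.trans (Nat.div_le_self _ _)⟩
    have hB1 : Bx P b (1 : DirichletCharacter ℂ r) = 1 := by
      unfold Bx
      have e1 : ∀ p ∈ P, (b p : ℂ) * (1 : DirichletCharacter ℂ r) (p : ZMod r) = (b p : ℂ) := by
        intro p hp
        have : IsUnit ((p : ℕ) : ZMod r) := (ZMod.isUnit_iff_coprime p r).2 (hP p hp r hrD)
        rw [MulChar.one_apply this, mul_one]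
      rw [Finset.sum_congr rfl e1]
      exact_mod_cast hb
    rw [← mul_sub]
    congr 1
    have e2 := Finset.sum_filter_add_sum_filter_not (univ : Finset (DirichletCharacter ℂ r))
      (fun χ => χ ≠ 1) (fun χ => (starRingEnd ℂ) (χ ((g / h : ℤ) : ZMod r)) *
        (starRingEnd ℂ) (Bx P b χ) * (χ ((n / h : ℕ) : ZMod r) * F (h * r)))
    rw [← e2]
    have e3 : (univ : Finset (DirichletCharacter ℂ r)).filter (fun χ => ¬ χ ≠ 1) = {1} := by
      ext χ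
      simp
    rw [e3, Finset.sum_singleton, hB1, map_one, mul_one]
    simp only [if_pos hn]
    ring
  · rw [if_neg hn]
    symm
    refine Finset.sum_eq_zero fun r _ => ?_
    rw [Finset.sum_eq_zero, mul_zero]
    intro χ _
    rw [if_neg hn, mul_zero]

/-- the coefficients of the sums over `n` -/
noncomputable def ac (C : ℕ → ℝ) (Q : ℕ) (jj : ℕ → ℕ) (h j m : ℕ) : ℂ :=
  if h * m ≤ Q ∧ jj (h * m) = j then (C (h * m) : ℂ) else 0

theorem sum_blocks (C : ℕ → ℝ) (Q : ℕ) (jj : ℕ → ℕ) {h : ℕ} (hh : 0 < h) (f : ℕ → ℂ)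
    (Φ : ℕ → ℂ) :
    ∑ n ∈ Finset.Icc 1 Q, (if h ∣ n then (C n : ℂ) * (f (n / h) * Φ (jj n)) else 0) =
      ∑ j ∈ (Finset.Icc 1 Q).image jj, Φ j * ∑ m ∈ Finset.Ioc 0 Q, ac C Q jj h j m * f m := by
  have h1 : ∑ n ∈ Finset.Icc 1 Q, (if h ∣ n then (C n : ℂ) * (f (n / h) * Φ (jj n)) else 0) =
      ∑ m ∈ Finset.Ioc 0 Q, (if h * m ≤ Q then (C (h * m) : ℂ) * (f m * Φ (jj (h * m))) else 0) := by
    rw [← Finset.sum_filter, ← Finset.sum_filter]
    refine Finset.sum_nbij' (fun n => n / h) (fun m => h * m) ?_ ?_ ?_ ?_ ?_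
    · intro n hn
      simp only [mem_filter, Finset.mem_Icc] at hn
      obtain ⟨⟨h1, h2⟩, k, rfl⟩ := hn
      have hk : 0 < k := Nat.pos_of_ne_zero (by rintro rfl; simp at h1)
      simp only [mem_filter, Finset.mem_Ioc]
      rw [Nat.mul_div_cancel_left k hh]
      exact ⟨⟨hk, (Nat.le_mul_of_pos_left k hh).trans h2⟩, h2⟩
    · intro m hm
      simp only [mem_filter, Finset.mem_Ioc] at hm
      simp only [mem_filter, Finset.mem_Icc]
      exact ⟨⟨Nat.mul_pos hh hm.1.1, hm.2⟩, Dvd.intro m rfl⟩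
    · intro n hn
      simp only [mem_filter, Finset.mem_Icc] at hn
      exact Nat.mul_div_cancel' hn.2
    · intro m hm
      exact Nat.mul_div_cancel_left m hh
    · intro n hn
      simp only [mem_filter, Finset.mem_Icc] at hn
      rw [Nat.mul_div_cancel' hn.2]
  rw [h1]
  simp only [Finset.mul_sum]
  rw [Finset.sum_comm]
  refine Finset.sum_congr rfl fun m hm => ?_
  rw [Finset.mem_Ioc] at hm
  by_cases hQ : h * m ≤ Q
  · rw [if_pos hQ]
    have hj : jj (h * m) ∈ (Finset.Icc 1 Q).image jj :=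
      Finset.mem_image_of_mem _ (Finset.mem_Icc.2 ⟨Nat.mul_pos hh hm.1, hQ⟩)
    rw [Finset.sum_eq_single_of_mem _ hj]
    · unfold ac
      rw [if_pos ⟨hQ, rfl⟩]
      ring
    · intro j _ hne
      unfold ac
      rw [if_neg (fun hc => hne hc.2.symm), zero_mul, mul_zero]
  · rw [if_neg hQ]
    symm
    refine Finset.sum_eq_zero fun j _ => ?_
    unfold ac
    rw [if_neg (fun hc => hQ hc.1), zero_mul, mul_zero]

open scoped Classical in
/-- the frozen off-diagonal, averaged -/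
theorem avg_bound {Q Dl : ℕ} (C : ℕ → ℝ) (S : Finset ℤ) (hS : ∀ g ∈ S, g ≠ 0) (P : Finset ℕ)
    (b : ℕ → ℝ) (hb : ∑ p ∈ P, b p = 1) (hP : ∀ p ∈ P, ∀ d ∈ Finset.Icc 1 Dl, Nat.Coprime p d)
    (jj : ℕ → ℕ) (Φ : ℕ → ℤ → ℕ → ℝ) :
    |∑ p ∈ P, b p * ∑ n ∈ Finset.Icc 1 Q, C n * ∑ g ∈ S, tau g.natAbs *
        ∑ d ∈ (Finset.Icc 1 Dl).filter (fun d : ℕ => (d : ℤ) ∣ (n : ℤ) - g * p), Φ (jj n) g d -
      ∑ n ∈ Finset.Icc 1 Q, C n * ∑ g ∈ S, tau g.natAbs *
        ∑ d ∈ Finset.Icc 1 Dl, rho d n g * Φ (jj n) g d| ≤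
      ∑ g ∈ S, tau g.natAbs * ∑ h ∈ g.natAbs.divisors, ∑ j ∈ (Finset.Icc 1 Q).image jj,
        ∑ r ∈ Finset.Icc 1 (Dl / h), 1 / (Nat.totient r : ℝ) *
          ∑ χ ∈ (univ : Finset (DirichletCharacter ℂ r)).filter (fun χ => χ ≠ 1),
            ‖Bx P b χ‖ * (|Φ j g (h * r)| *
              ‖∑ m ∈ Finset.Ioc 0 Q, ac C Q jj h j m * χ (m : ZMod r)‖) := by
  have key : ((∑ p ∈ P, b p * ∑ n ∈ Finset.Icc 1 Q, C n * ∑ g ∈ S, tau g.natAbs *
        ∑ d ∈ (Finset.Icc 1 Dl).filter (fun d : ℕ => (d : ℤ) ∣ (n : ℤ) - g * p), Φ (jj n) g d -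
      ∑ n ∈ Finset.Icc 1 Q, C n * ∑ g ∈ S, tau g.natAbs *
        ∑ d ∈ Finset.Icc 1 Dl, rho d n g * Φ (jj n) g d : ℝ) : ℂ) =
      ∑ g ∈ S, (tau g.natAbs : ℂ) * ∑ h ∈ g.natAbs.divisors,
        ∑ j ∈ (Finset.Icc 1 Q).image jj,
        ∑ r ∈ Finset.Icc 1 (Dl / h), 1 / (Nat.totient r : ℂ) *
          ∑ χ ∈ (univ : Finset (DirichletCharacter ℂ r)).filter (fun χ => χ ≠ 1),
            (starRingEnd ℂ) (χ ((g / h : ℤ) : ZMod r)) * (starRingEnd ℂ) (Bx P b χ) *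
            ((Φ j g (h * r) : ℂ) *
              ∑ m ∈ Finset.Ioc 0 Q, ac C Q jj h j m * χ (m : ZMod r)) := by
    have e1 : ((∑ p ∈ P, b p * ∑ n ∈ Finset.Icc 1 Q, C n * ∑ g ∈ S, tau g.natAbs *
        ∑ d ∈ (Finset.Icc 1 Dl).filter (fun d : ℕ => (d : ℤ) ∣ (n : ℤ) - g * p), Φ (jj n) g d -
      ∑ n ∈ Finset.Icc 1 Q, C n * ∑ g ∈ S, tau g.natAbs *
        ∑ d ∈ Finset.Icc 1 Dl, rho d n g * Φ (jj n) g d : ℝ) : ℂ) =
        ∑ n ∈ Finset.Icc 1 Q, (C n : ℂ) * ∑ g ∈ S, (tau g.natAbs : ℂ) *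
          (∑ p ∈ P, (b p : ℂ) *
            ∑ d ∈ (Finset.Icc 1 Dl).filter (fun d : ℕ => (d : ℤ) ∣ (n : ℤ) - g * p),
              (Φ (jj n) g d : ℂ) -
          ∑ d ∈ Finset.Icc 1 Dl, (rho d n g : ℂ) * (Φ (jj n) g d : ℂ)) := by
      push_cast
      have e2 : ∑ p ∈ P, (b p : ℂ) * ∑ n ∈ Finset.Icc 1 Q, (C n : ℂ) *
          ∑ g ∈ S, (tau g.natAbs : ℂ) *
          ∑ d ∈ (Finset.Icc 1 Dl).filter (fun d : ℕ => (d : ℤ) ∣ (n : ℤ) - g * p),
            (Φ (jj n) g d : ℂ) =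
          ∑ n ∈ Finset.Icc 1 Q, (C n : ℂ) * ∑ g ∈ S, (tau g.natAbs : ℂ) *
          ∑ p ∈ P, (b p : ℂ) *
            ∑ d ∈ (Finset.Icc 1 Dl).filter (fun d : ℕ => (d : ℤ) ∣ (n : ℤ) - g * p),
              (Φ (jj n) g d : ℂ) := by
        simp only [Finset.mul_sum]
        rw [Finset.sum_comm]
        refine Finset.sum_congr rfl fun n _ => ?_
        rw [Finset.sum_comm]
        refine Finset.sum_congr rfl fun g _ => ?_
        refine Finset.sum_congr rfl fun p _ => ?_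
        refine Finset.sum_congr rfl fun d _ => ?_
        ring
      rw [e2, ← Finset.sum_sub_distrib]
      refine Finset.sum_congr rfl fun n _ => ?_
      rw [← mul_sub, ← Finset.sum_sub_distrib]
      congr 1
      refine Finset.sum_congr rfl fun g _ => ?_
      rw [← mul_sub]
    rw [e1]
    rw [Finset.sum_congr rfl (fun n _ => by
      rw [Finset.sum_congr rfl (fun g hg => by
        rw [avg_fixed (hS g hg) P b hb hP (fun d => (Φ (jj n) g d : ℂ))])])]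
    have e3 : ∀ g ∈ S, ∀ h ∈ g.natAbs.divisors, ∀ r ∈ Finset.Icc 1 (Dl / h),
        ∀ χ ∈ (univ : Finset (DirichletCharacter ℂ r)).filter (fun χ => χ ≠ 1),
        ∑ j ∈ (Finset.Icc 1 Q).image jj, (Φ j g (h * r) : ℂ) *
          ∑ m ∈ Finset.Ioc 0 Q, ac C Q jj h j m * χ (m : ZMod r) =
        ∑ n ∈ Finset.Icc 1 Q, (C n : ℂ) *
          (if h ∣ n then χ ((n / h : ℕ) : ZMod r) * (Φ (jj n) g (h * r) : ℂ) else 0) := by
      intro g hg h hh r _ χ _
      have hh0 : 0 < h := Nat.pos_of_mem_divisors hh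
      rw [← sum_blocks C Q jj hh0 (fun m => χ ((m : ℕ) : ZMod r)) (fun j => (Φ j g (h * r) : ℂ))]
      refine Finset.sum_congr rfl fun n _ => ?_
      split_ifs <;> simp
    have e4 : ∀ g ∈ S, ∀ h ∈ g.natAbs.divisors,
        ∑ j ∈ (Finset.Icc 1 Q).image jj,
        ∑ r ∈ Finset.Icc 1 (Dl / h), 1 / (Nat.totient r : ℂ) *
          ∑ χ ∈ (univ : Finset (DirichletCharacter ℂ r)).filter (fun χ => χ ≠ 1),
            (starRingEnd ℂ) (χ ((g / h : ℤ) : ZMod r)) * (starRingEnd ℂ) (Bx P b χ) *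
            ((Φ j g (h * r) : ℂ) *
              ∑ m ∈ Finset.Ioc 0 Q, ac C Q jj h j m * χ (m : ZMod r)) =
        ∑ n ∈ Finset.Icc 1 Q, (C n : ℂ) *
          ∑ r ∈ Finset.Icc 1 (Dl / h), 1 / (Nat.totient r : ℂ) *
          ∑ χ ∈ (univ : Finset (DirichletCharacter ℂ r)).filter (fun χ => χ ≠ 1),
            (starRingEnd ℂ) (χ ((g / h : ℤ) : ZMod r)) * (starRingEnd ℂ) (Bx P b χ) *
            (if h ∣ n then χ ((n / h : ℕ) : ZMod r) * (Φ (jj n) g (h * r) : ℂ) else 0) := by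
      intro g hg h hh
      simp only [Finset.mul_sum]
      rw [Finset.sum_comm]
      conv_rhs => rw [Finset.sum_comm]
      refine Finset.sum_congr rfl fun r hr => ?_
      rw [Finset.sum_comm]
      conv_rhs => rw [Finset.sum_comm]
      refine Finset.sum_congr rfl fun χ hχ => ?_
      have e5 := e3 g hg h hh r hr χ hχ
      simp only [Finset.mul_sum] at e5
      have e6 : ∑ j ∈ (Finset.Icc 1 Q).image jj, ∑ m ∈ Finset.Ioc 0 Q,
          1 / (Nat.totient r : ℂ) * ((starRingEnd ℂ) (χ ((g / h : ℤ) : ZMod r)) *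
            (starRingEnd ℂ) (Bx P b χ) *
            ((Φ j g (h * r) : ℂ) * (ac C Q jj h j m * χ (m : ZMod r)))) =
          1 / (Nat.totient r : ℂ) * ((starRingEnd ℂ) (χ ((g / h : ℤ) : ZMod r)) *
            (starRingEnd ℂ) (Bx P b χ)) * ∑ j ∈ (Finset.Icc 1 Q).image jj,
            ∑ m ∈ Finset.Ioc 0 Q, (Φ j g (h * r) : ℂ) * (ac C Q jj h j m * χ (m : ZMod r)) := by
        simp only [Finset.mul_sum]
        refine Finset.sum_congr rfl fun j _ => Finset.sum_congr rfl fun m _ => ?_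
        ring
      rw [e6, e5, Finset.mul_sum]
      refine Finset.sum_congr rfl fun n _ => ?_
      ring
    have e5 : ∑ g ∈ S, (tau g.natAbs : ℂ) * ∑ h ∈ g.natAbs.divisors,
        ∑ j ∈ (Finset.Icc 1 Q).image jj,
        ∑ r ∈ Finset.Icc 1 (Dl / h), 1 / (Nat.totient r : ℂ) *
          ∑ χ ∈ (univ : Finset (DirichletCharacter ℂ r)).filter (fun χ => χ ≠ 1),
            (starRingEnd ℂ) (χ ((g / h : ℤ) : ZMod r)) * (starRingEnd ℂ) (Bx P b χ) *
            ((Φ j g (h * r) : ℂ) *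
              ∑ m ∈ Finset.Ioc 0 Q, ac C Q jj h j m * χ (m : ZMod r)) =
        ∑ g ∈ S, (tau g.natAbs : ℂ) * ∑ h ∈ g.natAbs.divisors,
          ∑ n ∈ Finset.Icc 1 Q, (C n : ℂ) *
          ∑ r ∈ Finset.Icc 1 (Dl / h), 1 / (Nat.totient r : ℂ) *
          ∑ χ ∈ (univ : Finset (DirichletCharacter ℂ r)).filter (fun χ => χ ≠ 1),
            (starRingEnd ℂ) (χ ((g / h : ℤ) : ZMod r)) * (starRingEnd ℂ) (Bx P b χ) *
            (if h ∣ n then χ ((n / h : ℕ) : ZMod r) * (Φ (jj n) g (h * r) : ℂ) else 0) := by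
      refine Finset.sum_congr rfl fun g hg => ?_
      congr 1
      exact Finset.sum_congr rfl (fun h hh => e4 g hg h hh)
    rw [e5]
    have e6 : ∀ n ∈ Finset.Icc 1 Q, (C n : ℂ) * ∑ g ∈ S, (tau g.natAbs : ℂ) *
        ∑ h ∈ g.natAbs.divisors, ∑ r ∈ Finset.Icc 1 (Dl / h), 1 / (Nat.totient r : ℂ) *
        ∑ χ ∈ (univ : Finset (DirichletCharacter ℂ r)).filter (fun χ => χ ≠ 1),
          (starRingEnd ℂ) (χ ((g / h : ℤ) : ZMod r)) * (starRingEnd ℂ) (Bx P b χ) *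
            (if h ∣ n then χ ((n / h : ℕ) : ZMod r) * (Φ (jj n) g (h * r) : ℂ) else 0) =
        ∑ g ∈ S, (tau g.natAbs : ℂ) * ∑ h ∈ g.natAbs.divisors, (C n : ℂ) *
          ∑ r ∈ Finset.Icc 1 (Dl / h), 1 / (Nat.totient r : ℂ) *
          ∑ χ ∈ (univ : Finset (DirichletCharacter ℂ r)).filter (fun χ => χ ≠ 1),
            (starRingEnd ℂ) (χ ((g / h : ℤ) : ZMod r)) * (starRingEnd ℂ) (Bx P b χ) *
            (if h ∣ n then χ ((n / h : ℕ) : ZMod r) * (Φ (jj n) g (h * r) : ℂ) else 0) := by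
      intro n _
      rw [Finset.mul_sum]
      refine Finset.sum_congr rfl fun g _ => ?_
      rw [mul_left_comm, Finset.mul_sum]
    rw [Finset.sum_congr rfl e6, Finset.sum_comm]
    refine Finset.sum_congr rfl fun g _ => ?_
    rw [← Finset.mul_sum, Finset.sum_comm]
  rw [← Real.norm_eq_abs, ← Complex.norm_real, key]
  have hstep : ∀ g ∈ S, ‖(tau g.natAbs : ℂ) * ∑ h ∈ g.natAbs.divisors,
        ∑ j ∈ (Finset.Icc 1 Q).image jj,
        ∑ r ∈ Finset.Icc 1 (Dl / h), 1 / (Nat.totient r : ℂ) *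
          ∑ χ ∈ (univ : Finset (DirichletCharacter ℂ r)).filter (fun χ => χ ≠ 1),
            (starRingEnd ℂ) (χ ((g / h : ℤ) : ZMod r)) * (starRingEnd ℂ) (Bx P b χ) *
            ((Φ j g (h * r) : ℂ) *
              ∑ m ∈ Finset.Ioc 0 Q, ac C Q jj h j m * χ (m : ZMod r))‖ ≤
      tau g.natAbs * ∑ h ∈ g.natAbs.divisors, ∑ j ∈ (Finset.Icc 1 Q).image jj,
        ∑ r ∈ Finset.Icc 1 (Dl / h), 1 / (Nat.totient r : ℝ) *
          ∑ χ ∈ (univ : Finset (DirichletCharacter ℂ r)).filter (fun χ => χ ≠ 1),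
            ‖Bx P b χ‖ * (|Φ j g (h * r)| *
              ‖∑ m ∈ Finset.Ioc 0 Q, ac C Q jj h j m * χ (m : ZMod r)‖) := by
    intro g _
    have ht : ‖(tau g.natAbs : ℂ)‖ = tau g.natAbs := by
      rw [Complex.norm_real, Real.norm_eq_abs, abs_of_nonneg]
      unfold tau; positivity
    rw [norm_mul, ht]
    refine mul_le_mul_of_nonneg_left ?_ (by unfold tau; positivity)
    refine (norm_sum_le _ _).trans (Finset.sum_le_sum fun h _ => ?_)
    refine (norm_sum_le _ _).trans (Finset.sum_le_sum fun j _ => ?_)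
    refine (norm_sum_le _ _).trans (Finset.sum_le_sum fun r _ => ?_)
    rw [norm_mul, norm_div, norm_one, Complex.norm_natCast]
    refine mul_le_mul_of_nonneg_left ?_ (by positivity)
    refine (norm_sum_le _ _).trans (Finset.sum_le_sum fun χ _ => ?_)
    rw [norm_mul, norm_mul, RCLike.norm_conj, RCLike.norm_conj, norm_mul, Complex.norm_real,
      Real.norm_eq_abs]
    refine mul_le_mul_of_nonneg_right ?_ (by positivity)
    exact mul_le_of_le_one_left (norm_nonneg _) (DirichletCharacter.norm_le_one _ _)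
  exact (norm_sum_le _ _).trans (Finset.sum_le_sum hstep)

end Pool.Agent.LSPO
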