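import Pool.Agent.Lib_helper31.LSP.DefsO
import Pool.Agent.Lib_helper73.Var.Block

/-! Part O: the expansion in characters -/

set_option autoImplicit false

namespace Pool.Agent.LSPO

open Finset Complex DirichletCharacter Pool.Agent.Var73 Pool.Agent.Var35

open scoped Classical in
/-- the indicator function of a reduced class -/
theorem ind_char {r : ℕ} [NeZero r] (a b : ZMod r) :
    (if IsUnit a ∧ a = b then (1 : ℂ) else 0) =
      1 / (Nat.totient r : ℂ) *
        ∑ χ : DirichletCharacter ℂ r, (starRingEnd ℂ) (χ a) * χ b := by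
  have hφ : (Nat.totient r : ℂ) ≠ 0 := by
    have := Nat.totient_pos.mpr (Nat.pos_of_ne_zero (NeZero.ne r))
    exact_mod_cast this.ne'
  by_cases ha : IsUnit a
  · have h1 := DirichletCharacter.sum_char_inv_mul_char_eq ℂ ha b
    rw [Finset.sum_congr rfl (fun χ _ => by rw [conj_char χ ha]), h1]
    by_cases hab : a = b
    · rw [if_pos ⟨ha, hab⟩, if_pos hab]
      field_simp
    · rw [if_neg (fun h => hab h.2), if_neg hab, mul_zero]
  · rw [if_neg (fun h => ha h.1)]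
    symm
    rw [Finset.sum_eq_zero, mul_zero]
    intro χ _
    rw [MulChar.map_nonunit χ ha, map_zero, zero_mul]

/-- sums over `d` according to `(d, g)` -/
theorem gcd_reindex {E : Type*} [AddCommMonoid E] {g : ℕ} (hg : g ≠ 0) (Dl : ℕ)
    (F : ℕ → ℕ → E) :
    ∑ d ∈ Finset.Icc 1 Dl, F d (Nat.gcd d g) =
      ∑ h ∈ g.divisors, ∑ r ∈ (Finset.Icc 1 (Dl / h)).filter (fun r => Nat.Coprime r (g / h)),
        F (h * r) h := by
  rw [Finset.sum_sigma' g.divisors
    (fun h => (Finset.Icc 1 (Dl / h)).filter (fun r => Nat.Coprime r (g / h)))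
    (fun h r => F (h * r) h)]
  refine Finset.sum_nbij' (fun d => ⟨Nat.gcd d g, d / Nat.gcd d g⟩) (fun x => x.1 * x.2)
    ?_ ?_ ?_ ?_ ?_
  · intro d hd
    rw [Finset.mem_Icc] at hd
    have hg0 : 0 < Nat.gcd d g := Nat.gcd_pos_of_pos_right d (Nat.pos_of_ne_zero hg)
    have hd2 : Nat.gcd d g ∣ d := Nat.gcd_dvd_left d g
    simp only [mem_sigma, Nat.mem_divisors, mem_filter, Finset.mem_Icc]
    refine ⟨⟨Nat.gcd_dvd_right d g, hg⟩, ⟨?_, ?_⟩, ?_⟩
    · exact Nat.div_pos (Nat.le_of_dvd (by omega) hd2) hg0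
    · exact Nat.div_le_div_right hd.2
    · exact Nat.coprime_div_gcd_div_gcd hg0
  · rintro ⟨h, r⟩ hx
    simp only [mem_sigma, Nat.mem_divisors, mem_filter, Finset.mem_Icc] at hx
    obtain ⟨⟨hh, _⟩, ⟨hr1, hr2⟩, _⟩ := hx
    have hh0 : 0 < h := Nat.pos_of_dvd_of_pos hh (Nat.pos_of_ne_zero hg)
    simp only [Finset.mem_Icc]
    refine ⟨Nat.mul_pos hh0 hr1, ?_⟩
    calc h * r ≤ h * (Dl / h) := Nat.mul_le_mul_left _ hr2
      _ ≤ Dl := Nat.mul_div_le Dl h
  · intro d hd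
    exact Nat.mul_div_cancel' (Nat.gcd_dvd_left d g)
  · rintro ⟨h, r⟩ hx
    simp only [mem_sigma, Nat.mem_divisors, mem_filter, Finset.mem_Icc] at hx
    obtain ⟨⟨hh, _⟩, ⟨hr1, hr2⟩, hc⟩ := hx
    have hh0 : 0 < h := Nat.pos_of_dvd_of_pos hh (Nat.pos_of_ne_zero hg)
    have e1 : Nat.gcd (h * r) g = h := by
      obtain ⟨k, rfl⟩ := hh
      rw [Nat.mul_div_cancel_left k hh0] at hc
      rw [Nat.gcd_mul_left, hc, mul_one]
    simp only
    rw [e1, Nat.mul_div_cancel_left r hh0]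
  · intro d hd
    simp only
    rw [Nat.mul_div_cancel' (Nat.gcd_dvd_left d g)]

open scoped Classical in
theorem expand1 {n : ℕ} {g : ℤ} (hg : g ≠ 0) {N Dl : ℕ}
    (hN : ∀ d ∈ Finset.Icc 1 Dl, Nat.Coprime N d) (F : ℕ → ℂ) :
    ∑ d ∈ (Finset.Icc 1 Dl).filter (fun d : ℕ => (d : ℤ) ∣ (n : ℤ) - g * N), F d =
      ∑ h ∈ g.natAbs.divisors.filter (fun h => h ∣ n), ∑ r ∈ Finset.Icc 1 (Dl / h),
        1 / (Nat.totient r : ℂ) * ∑ χ : DirichletCharacter ℂ r,
          (starRingEnd ℂ) (χ ((g / h : ℤ) : ZMod r)) * (starRingEnd ℂ) (χ (N : ZMod r)) *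
            χ ((n / h : ℕ) : ZMod r) * F (h * r) := by
  have hg' : g.natAbs ≠ 0 := Int.natAbs_ne_zero.2 hg
  rw [Finset.sum_filter]
  rw [gcd_reindex hg' Dl (fun (d : ℕ) (_ : ℕ) => if (d : ℤ) ∣ (n : ℤ) - g * N then F d else 0)]
  rw [Finset.sum_filter]
  refine Finset.sum_congr rfl fun h hh => ?_
  rw [Nat.mem_divisors] at hh
  have hh0 : 0 < h := Nat.pos_of_dvd_of_pos hh.1 (Nat.pos_of_ne_zero hg')
  have hhg : (h : ℤ) ∣ g := Int.natCast_dvd.2 hh.1
  obtain ⟨g', hg'e⟩ := hhg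
  have hgh : g / h = g' := by
    rw [hg'e]
    exact Int.mul_ediv_cancel_left _ (by exact_mod_cast hh0.ne')
  have hgabs : g.natAbs / h = g'.natAbs := by
    rw [hg'e, Int.natAbs_mul, Int.natAbs_natCast, Nat.mul_div_cancel_left _ hh0]
  by_cases hn : h ∣ n
  · rw [if_pos hn]
    obtain ⟨n', rfl⟩ := hn
    rw [Finset.sum_filter]
    refine Finset.sum_congr rfl fun r hr => ?_
    rw [Finset.mem_Icc] at hr
    have : NeZero r := ⟨by omega⟩
    have hrD : r ∈ Finset.Icc 1 Dl :=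
      Finset.mem_Icc.2 ⟨hr.1, hr.2.trans (Nat.div_le_self _ _)⟩
    rw [Nat.mul_div_cancel_left n' hh0, hgh, hgabs]
    have e1 : ((h * r : ℕ) : ℤ) ∣ ((h * n' : ℕ) : ℤ) - g * N ↔
        ((g' * N : ℤ) : ZMod r) = ((n' : ℕ) : ZMod r) := by
      rw [hg'e]
      push_cast
      rw [show (h : ℤ) * n' - h * g' * N = h * (n' - g' * N) by ring,
        mul_dvd_mul_iff_left (by exact_mod_cast hh0.ne' : (h : ℤ) ≠ 0)]
      rw [← ZMod.intCast_zmod_eq_zero_iff_dvd]
      push_cast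
      rw [sub_eq_zero, eq_comm]
    have e2 : Nat.Coprime r g'.natAbs ↔ IsUnit ((g' * N : ℤ) : ZMod r) := by
      have hNr : IsUnit ((N : ℕ) : ZMod r) := (ZMod.isUnit_iff_coprime N r).2 (hN r hrD)
      push_cast
      have e3 : IsUnit ((g' : ZMod r) * (N : ZMod r)) ↔ IsUnit (g' : ZMod r) := by
        constructor
        · intro h
          exact isUnit_of_mul_isUnit_left h
        · intro h
          exact h.mul hNr
      rw [e3, ZMod.coe_int_isUnit_iff_isCoprime, Int.isCoprime_iff_gcd_eq_one]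
      rfl
    have e4 := ind_char (r := r) ((g' * N : ℤ) : ZMod r) ((n' : ℕ) : ZMod r)
    have e5 : (if Nat.Coprime r g'.natAbs then
        (if ((h * r : ℕ) : ℤ) ∣ ((h * n' : ℕ) : ℤ) - g * N then F (h * r) else 0) else 0) =
        (if IsUnit ((g' * N : ℤ) : ZMod r) ∧
          ((g' * N : ℤ) : ZMod r) = ((n' : ℕ) : ZMod r) then (1 : ℂ) else 0) * F (h * r) := by
      by_cases h1 : Nat.Coprime r g'.natAbs
      · rw [if_pos h1]
        by_cases h2 : ((h * r : ℕ) : ℤ) ∣ ((h * n' : ℕ) : ℤ) - g * N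
        · rw [if_pos h2, if_pos ⟨e2.1 h1, e1.1 h2⟩, one_mul]
        · rw [if_neg h2, if_neg (fun h => h2 (e1.2 h.2)), zero_mul]
      · rw [if_neg h1, if_neg (fun h => h1 (e2.2 h.1)), zero_mul]
    rw [e5, e4, mul_assoc, Finset.sum_mul]
    congr 1
    refine Finset.sum_congr rfl fun χ _ => ?_
    push_cast
    rw [map_mul, map_mul]
  · rw [if_neg hn]
    refine Finset.sum_eq_zero fun r _ => ?_
    rw [if_neg]
    intro h1
    apply hn
    have h2 : (h : ℤ) ∣ (n : ℤ) - g * N := (Dvd.intro (r : ℤ) (by push_cast; ring)).trans h1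
    have h3 : (h : ℤ) ∣ g * N := (Dvd.intro g' hg'e.symm).mul_right _
    have h4 : (h : ℤ) ∣ n := by
      have := dvd_add h2 h3
      simpa using this
    exact_mod_cast h4

open scoped Classical in
theorem expand2 {n : ℕ} {g : ℤ} (hg : g ≠ 0) {Dl : ℕ} (F : ℕ → ℂ) :
    ∑ d ∈ Finset.Icc 1 Dl, (rho d n g : ℂ) * F d =
      ∑ h ∈ g.natAbs.divisors.filter (fun h => h ∣ n), ∑ r ∈ Finset.Icc 1 (Dl / h),
        1 / (Nat.totient r : ℂ) *
          ((starRingEnd ℂ) ((1 : DirichletCharacter ℂ r) ((g / h : ℤ) : ZMod r)) *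
            (1 : DirichletCharacter ℂ r) ((n / h : ℕ) : ZMod r) * F (h * r)) := by
  have hg' : g.natAbs ≠ 0 := Int.natAbs_ne_zero.2 hg
  have h0 : ∑ d ∈ Finset.Icc 1 Dl, (rho d n g : ℂ) * F d = ∑ d ∈ Finset.Icc 1 Dl,
      (fun d k => (if Nat.gcd d n = k then 1 / (Nat.totient (d / k) : ℂ) else 0) * F d) d
        (Nat.gcd d g.natAbs) := by
    refine Finset.sum_congr rfl fun d _ => ?_
    simp only [rho]
    split_ifs <;> simp
  rw [h0, gcd_reindex hg' Dl (fun (d k : ℕ) =>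
    (if Nat.gcd d n = k then 1 / (Nat.totient (d / k) : ℂ) else 0) * F d), Finset.sum_filter]
  refine Finset.sum_congr rfl fun h hh => ?_
  rw [Nat.mem_divisors] at hh
  have hh0 : 0 < h := Nat.pos_of_dvd_of_pos hh.1 (Nat.pos_of_ne_zero hg')
  have hhg : (h : ℤ) ∣ g := Int.natCast_dvd.2 hh.1
  obtain ⟨g', hg'e⟩ := hhg
  have hgh : g / h = g' := by
    rw [hg'e]
    exact Int.mul_ediv_cancel_left _ (by exact_mod_cast hh0.ne')
  have hgabs : g.natAbs / h = g'.natAbs := by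
    rw [hg'e, Int.natAbs_mul, Int.natAbs_natCast, Nat.mul_div_cancel_left _ hh0]
  by_cases hn : h ∣ n
  · rw [if_pos hn]
    obtain ⟨n', rfl⟩ := hn
    rw [Finset.sum_filter]
    refine Finset.sum_congr rfl fun r hr => ?_
    rw [Finset.mem_Icc] at hr
    have : NeZero r := ⟨by omega⟩
    rw [Nat.mul_div_cancel_left n' hh0, hgh, hgabs, Nat.mul_div_cancel_left r hh0,
      Nat.gcd_mul_left]
    have e2 : Nat.Coprime r g'.natAbs ↔ IsUnit ((g' : ℤ) : ZMod r) := by
      rw [ZMod.coe_int_isUnit_iff_isCoprime, Int.isCoprime_iff_gcd_eq_one]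
      rfl
    have e3 : h * Nat.gcd r n' = h ↔ IsUnit ((n' : ℕ) : ZMod r) := by
      rw [ZMod.isUnit_iff_coprime, Nat.coprime_comm]
      constructor
      · intro h1
        exact Nat.eq_of_mul_eq_mul_left hh0 (by rw [h1, mul_one])
      · intro h1
        rw [h1, mul_one]
    by_cases h1 : Nat.Coprime r g'.natAbs
    · rw [if_pos h1, MulChar.one_apply (e2.1 h1), map_one, one_mul]
      by_cases h2 : h * Nat.gcd r n' = h
      · rw [if_pos h2, MulChar.one_apply (e3.1 h2), one_mul]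
      · rw [if_neg h2, MulChar.map_nonunit _ (fun h => h2 (e3.2 h))]
        simp
    · rw [if_neg h1, MulChar.map_nonunit _ (fun h => h1 (e2.2 h))]
      simp
  · rw [if_neg hn]
    refine Finset.sum_eq_zero fun r hr => ?_
    rw [if_neg, zero_mul]
    intro h1
    exact hn (h1 ▸ Nat.gcd_dvd_right (h * r) n)

end Pool.Agent.LSPO
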