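import Pool.Agent.Lib_helper31.LSP.PtC

/-! Part O: the final theorem -/

set_option autoImplicit false

namespace Pool.Agent.LSPO

open Finset Complex DirichletCharacter Pool.Agent.Var73 Pool.Agent.Var35

/-- the weighted average of the off-diagonal over the primes of a short window is the principal
part, up to `1 / Y` -/
theorem finite_main {G : ℝ → ℝ} {U c Y Z : ℝ} {Q Dl R : ℕ} {C : ℕ → ℝ}
    (h : Par G U c Y Z Q Dl C) (S : Finset ℤ) (hS : ∀ g ∈ S, g ≠ 0) (P : Finset ℕ)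
    (hP : ∀ p ∈ P, p.Prime ∧ Dl < p ∧ |Real.log ((p : ℝ) / Z)| ≤ (Y ^ 125)⁻¹)
    (hCP : ∀ p ∈ P, ∀ n ∈ Finset.Icc 1 Q, C n ≠ 0 → ¬ p ∣ n) (b : ℕ → ℝ)
    (hb : ∀ p ∈ P, 0 ≤ b p ∧ b p ≤ Y ^ 275 / Z) (hb1 : ∑ p ∈ P, b p = 1)
    (hR : Y ^ 400 ≤ R)
    (hv : ∀ d, 1 < d → d ≤ R → ∀ ψ ∈ Pr d, ∑ p ∈ P, (b p : ℂ) * ψ (p : ZMod d) = 0) :
    |∑ p ∈ P, b p * ODg C G Q S p - b1 C G Q S Dl ((Y ^ 32)⁻¹) Z| ≤ 1 / Y := by
  classical
  have hY0 := h.Y0
  have hY2 := h.Y2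
  have hpi : Real.pi ≤ 4 := Real.pi_le_four
  have hPw : ∀ p ∈ P, p.Prime ∧ Dl < p ∧ |Real.log ((p : ℝ) / Z)| ≤ omg Y := hP
  -- the frozen sums
  set V : ℕ → ℝ := fun p => ∑ n ∈ Finset.Icc 1 Q, C n * ∑ g ∈ S, tau g.natAbs *
      ∑ d ∈ (Finset.Icc 1 Dl).filter (fun d : ℕ => (d : ℤ) ∣ (n : ℤ) - g * p),
        Fz G Y Z (jx Y n) g d with hV
  set W : ℝ := ∑ n ∈ Finset.Icc 1 Q, C n * ∑ g ∈ S, tau g.natAbs *
      ∑ d ∈ Finset.Icc 1 Dl, rho d n g * Fz G Y Z (jx Y n) g d with hW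
  have hA : |∑ p ∈ P, b p * ODg C G Q S p - 4 * Real.pi * ∑ p ∈ P, b p * V p| ≤
      1 / (4 * Y) := by
    have e1 : ∑ p ∈ P, b p * ODg C G Q S p - 4 * Real.pi * ∑ p ∈ P, b p * V p =
        ∑ p ∈ P, b p * (ODg C G Q S p - 4 * Real.pi * V p) := by
      rw [Finset.mul_sum, ← Finset.sum_sub_distrib]
      refine Finset.sum_congr rfl fun p _ => ?_
      ring
    rw [e1]
    refine (Finset.abs_sum_le_sum_abs _ _).trans ?_
    calc ∑ p ∈ P, |b p * (ODg C G Q S p - 4 * Real.pi * V p)|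
        ≤ ∑ p ∈ P, b p * (1 / (4 * Y)) := by
          refine Finset.sum_le_sum fun p hp => ?_
          rw [abs_mul, abs_of_nonneg (hb p hp).1]
          refine mul_le_mul_of_nonneg_left ?_ (hb p hp).1
          exact h.partA S hS (hPw p hp).1.pos (hPw p hp).2.2 (hCP p hp)
      _ = 1 / (4 * Y) := by rw [← Finset.sum_mul, hb1, one_mul]
  have hB : |b1 C G Q S Dl ((Y ^ 32)⁻¹) Z - 4 * Real.pi * W| ≤ 1 / (4 * Y) := h.partB S hS
  have hcop : ∀ p ∈ P, ∀ d ∈ Finset.Icc 1 Dl, Nat.Coprime p d := by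
    intro p hp d hd
    rw [Finset.mem_Icc] at hd
    have h1 := hPw p hp
    exact (Nat.Prime.coprime_iff_not_dvd h1.1).2
      (Nat.not_dvd_of_pos_of_lt (by omega) (lt_of_le_of_lt hd.2 h1.2.1))
  have hC : |∑ p ∈ P, b p * V p - W| ≤ 1 / (32 * Y) := by
    have h0 := avg_bound (Q := Q) (Dl := Dl) C S hS P b hb1 hcop (jx Y)
      (fun j g d => Fz G Y Z j g d)
    refine h0.trans ?_
    -- restrict to small `g`
    have h1 : ∀ g ∈ S, tau g.natAbs * ∑ k ∈ g.natAbs.divisors,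
        ∑ j ∈ (Finset.Icc 1 Q).image (jx Y), ∑ r ∈ Finset.Icc 1 (Dl / k),
          1 / (Nat.totient r : ℝ) *
          ∑ χ ∈ (univ : Finset (DirichletCharacter ℂ r)).filter (fun χ => χ ≠ 1),
            ‖Bx P b χ‖ * (|Fz G Y Z j g (k * r)| *
              ‖∑ m ∈ Finset.Ioc 0 Q, ac C Q (jx Y) k j m * χ (m : ZMod r)‖) ≤
        if |(g : ℝ)| ≤ Gm U Y then
          tau g.natAbs * tau g.natAbs * (Y ^ 126 * (Y ^ 164 / R)) else 0 := by
      intro g hg
      split_ifs with hgG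
      · rw [mul_assoc]
        refine mul_le_mul_of_nonneg_left ?_ (tau_nonneg _)
        have h2 : ∀ k ∈ g.natAbs.divisors, ∑ j ∈ (Finset.Icc 1 Q).image (jx Y),
            ∑ r ∈ Finset.Icc 1 (Dl / k), 1 / (Nat.totient r : ℝ) *
            ∑ χ ∈ (univ : Finset (DirichletCharacter ℂ r)).filter (fun χ => χ ≠ 1),
              ‖Bx P b χ‖ * (|Fz G Y Z j g (k * r)| *
                ‖∑ m ∈ Finset.Ioc 0 Q, ac C Q (jx Y) k j m * χ (m : ZMod r)‖) ≤
            Y ^ 126 * (Y ^ 164 / R) := by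
          intro k hk
          have hk0 : 0 < k := Nat.pos_of_mem_divisors hk
          refine (Finset.sum_le_sum fun j hj => h.block hR P hPw b hb hb1 hv hk0 (hS g hg)
            hj).trans ?_
          rw [Finset.sum_const, nsmul_eq_mul]
          have hc := h.cardJ
          have hp : 0 ≤ Y ^ 164 / (R : ℝ) := div_nonneg (pow_nonneg hY0.le _) (Nat.cast_nonneg R)
          exact mul_le_mul_of_nonneg_right hc hp
        refine (Finset.sum_le_sum h2).trans (le_of_eq ?_)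
        rw [Finset.sum_const, nsmul_eq_mul]
        rfl
      · refine le_of_eq ?_
        push Not at hgG
        rw [Finset.sum_eq_zero, mul_zero]
        intro k _
        refine Finset.sum_eq_zero fun j hj => ?_
        rw [Finset.mem_image] at hj
        obtain ⟨n, hn, hnj⟩ := hj
        rw [Finset.mem_Icc] at hn
        refine Finset.sum_eq_zero fun r _ => ?_
        rw [Finset.sum_eq_zero, mul_zero]
        intro χ _
        have h3 : Fz G Y Z j g (k * r) = 0 := by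
          rw [← hnj]
          exact h.zero_F hn.1 hn.2 hgG _
        rw [h3]
        simp
    refine (Finset.sum_le_sum h1).trans ?_
    rw [← Finset.sum_filter, ← Finset.sum_mul]
    have h4 := h.sumg2 S hS
    have hR0 : (0 : ℝ) < Y ^ 400 := by positivity
    calc (∑ g ∈ S.filter (fun g : ℤ => |(g : ℝ)| ≤ Gm U Y), tau g.natAbs * tau g.natAbs) *
          (Y ^ 126 * (Y ^ 164 / R))
        ≤ (Y ^ 20 / 100) * (Y ^ 126 * (Y ^ 164 / Y ^ 400)) := by
          have hp : 0 ≤ Y ^ 164 / (R : ℝ) :=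
            div_nonneg (pow_nonneg hY0.le _) (Nat.cast_nonneg R)
          have hq : Y ^ 164 / (R : ℝ) ≤ Y ^ 164 / Y ^ 400 :=
            div_le_div_of_nonneg_left (pow_nonneg hY0.le _) hR0 hR
          have hs : Y ^ 126 * (Y ^ 164 / (R : ℝ)) ≤ Y ^ 126 * (Y ^ 164 / Y ^ 400) :=
            mul_le_mul_of_nonneg_left hq (pow_nonneg hY0.le _)
          exact mul_le_mul h4 hs (mul_nonneg (pow_nonneg hY0.le _) hp)
            (div_nonneg (pow_nonneg hY0.le _) (by norm_num))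
      _ = 1 / 100 * (1 / Y ^ 90) := by field_simp
      _ ≤ 1 / 100 * (1 / Y) := by
          gcongr
          calc Y = Y ^ 1 := (pow_one Y).symm
            _ ≤ Y ^ 90 := h.pw (by norm_num)
      _ ≤ 1 / (32 * Y) := by
          have : 0 < 1 / Y := by positivity
          have e2 : 1 / (32 * Y) = 1 / 32 * (1 / Y) := by field_simp
          rw [e2]
          linarith
  -- conclusion
  have e1 : ∑ p ∈ P, b p * ODg C G Q S p - b1 C G Q S Dl ((Y ^ 32)⁻¹) Z =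
      (∑ p ∈ P, b p * ODg C G Q S p - 4 * Real.pi * ∑ p ∈ P, b p * V p) -
      (b1 C G Q S Dl ((Y ^ 32)⁻¹) Z - 4 * Real.pi * W) +
      4 * Real.pi * (∑ p ∈ P, b p * V p - W) := by ring
  rw [e1]
  have e2 : |4 * Real.pi * (∑ p ∈ P, b p * V p - W)| ≤ 1 / (2 * Y) := by
    rw [abs_mul, abs_of_pos (by positivity : 0 < 4 * Real.pi)]
    calc 4 * Real.pi * |∑ p ∈ P, b p * V p - W| ≤ 4 * 4 * (1 / (32 * Y)) := by gcongr
      _ = 1 / (2 * Y) := by field_simp; norm_num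
  refine (abs_add_le _ _).trans ?_
  have e3 := (abs_sub (∑ p ∈ P, b p * ODg C G Q S p - 4 * Real.pi * ∑ p ∈ P, b p * V p)
    (b1 C G Q S Dl ((Y ^ 32)⁻¹) Z - 4 * Real.pi * W))
  have e4 : 1 / (4 * Y) + 1 / (4 * Y) + 1 / (2 * Y) = 1 / Y := by field_simp; norm_num
  linarith

end Pool.Agent.LSPO
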