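import Pool.Agent.Lib_helper31.LSP.DefsO

/-! Part O: the hyperbola cut and the kernel -/

set_option autoImplicit false

namespace Pool.Agent.LSPO

open Finset

theorem hyp_nonneg (y : ℝ) : 0 ≤ hyp y := le_max_left _ _

theorem hyp_le_one (y : ℝ) : hyp y ≤ 1 := max_le zero_le_one (min_le_left _ _)

theorem hyp_add (y : ℝ) : hyp y + hyp (-y) = 1 := by
  unfold hyp
  rcases le_total y (-(1 / 2)) with h | h
  · rw [min_eq_left (by linarith), min_eq_right (by linarith), max_eq_right (by norm_num),
      max_eq_left (by linarith)]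
    norm_num
  rcases le_total y (1 / 2) with h' | h'
  · rw [min_eq_right (by linarith), min_eq_right (by linarith), max_eq_right (by linarith),
      max_eq_right (by linarith)]
    norm_num
  · rw [min_eq_right (by linarith), min_eq_left (by linarith), max_eq_left (by linarith),
      max_eq_right (by norm_num)]
    norm_num

theorem hyp_eq_zero {y : ℝ} (h : 1 / 2 ≤ y) : hyp y = 0 := by
  unfold hyp
  rw [min_eq_right (by linarith), max_eq_left (by linarith)]

theorem clamp_lip (a b : ℝ) : |max 0 (min 1 a) - max 0 (min 1 b)| ≤ |a - b| := by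
  have h1 := abs_max_sub_max_le_abs (min 1 a) (min 1 b) 0
  rw [max_comm (min 1 a), max_comm (min 1 b)] at h1
  refine h1.trans ?_
  have h2 := abs_min_sub_min_le_max 1 a 1 b
  simpa using h2

theorem hyp_lip (y z : ℝ) : |hyp y - hyp z| ≤ |y - z| := by
  unfold hyp
  refine (clamp_lip _ _).trans (le_of_eq ?_)
  rw [show (1 / 2 - y - (1 / 2 - z) : ℝ) = -(y - z) by ring, abs_neg]

theorem cl_nonneg (om u : ℝ) : 0 ≤ cl om u := le_max_left _ _

theorem cl_le_one (om u : ℝ) : cl om u ≤ 1 := max_le zero_le_one (min_le_left _ _)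

theorem cl_eq_zero {om u : ℝ} (h0 : 0 < om) (h : |1 - u| ≤ om) : cl om u = 0 := by
  unfold cl
  have h1 : |1 - u| / om ≤ 1 := by rw [div_le_one h0]; exact h
  rw [min_eq_right (by linarith), max_eq_left (by linarith)]

theorem cl_eq_one {om u : ℝ} (h0 : 0 < om) (h : 2 * om ≤ |1 - u|) : cl om u = 1 := by
  unfold cl
  have h1 : 2 ≤ |1 - u| / om := by rw [le_div_iff₀ h0]; exact h
  rw [min_eq_left (by linarith), max_eq_right (by norm_num)]

theorem cl_lip {om : ℝ} (h0 : 0 < om) (u v : ℝ) : |cl om u - cl om v| ≤ |u - v| / om := by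
  unfold cl
  refine (clamp_lip _ _).trans ?_
  rw [show |1 - u| / om - 1 - (|1 - v| / om - 1) = (|1 - u| - |1 - v|) / om by ring, abs_div,
    abs_of_pos h0]
  refine div_le_div_of_nonneg_right ?_ h0.le
  refine (abs_abs_sub_abs_le_abs_sub _ _).trans (le_of_eq ?_)
  rw [show (1 - u - (1 - v) : ℝ) = -(u - v) by ring, abs_neg]

/-- the exact hyperbola formula -/
theorem tau_hyp {m : ℕ} (hm : 1 ≤ m) :
    tau m = 2 * ∑ d ∈ m.divisors, hyp (Real.log d - Real.log m / 2) := by
  have h1 : ∑ d ∈ m.divisors, hyp (Real.log d - Real.log m / 2) =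
      ∑ d ∈ m.divisors, hyp (-(Real.log d - Real.log m / 2)) := by
    rw [← Nat.sum_div_divisors m]
    refine Finset.sum_congr rfl fun d hd => ?_
    have hd' := Nat.dvd_of_mem_divisors hd
    have hd0 : 0 < d := Nat.pos_of_mem_divisors hd
    congr 1
    rw [Nat.cast_div hd' (by positivity), Real.log_div (by positivity) (by positivity)]
    ring
  have h2 : ∑ d ∈ m.divisors, hyp (Real.log d - Real.log m / 2) +
      ∑ d ∈ m.divisors, hyp (-(Real.log d - Real.log m / 2)) = tau m := by
    rw [← Finset.sum_add_distrib, Finset.sum_congr rfl (fun d _ => hyp_add _)]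
    simp [tau]
  rw [← h1] at h2
  linarith

end Pool.Agent.LSPO
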