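import Pool.Agent.Lib_helper31.LSP.Ker
import Pool.Agent.Lib_helper73.Var.Block

/-! Part O: parameters and freezing -/

set_option autoImplicit false

namespace Pool.Agent.LSPO

open Finset

/-- the parameters; `Y` is a small power of `Z` -/
structure Par (G : ℝ → ℝ) (U c Y Z : ℝ) (Q Dl : ℕ) (C : ℕ → ℝ) : Prop where
  ok : GOK G U c
  h1 : 1 ≤ Z
  hY : 1000 * c * (Real.log Z + U + 1) ≤ Y
  hZ : Y ^ 200 ≤ Z
  hQ1 : 1 ≤ Q
  hQ : (Q : ℝ) ≤ Z * Y ^ 17
  hC : ∀ n : ℕ, 1 ≤ n → |C n| ≤ Y / n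
  ht : ∀ m : ℕ, 1 ≤ m → (m : ℝ) ≤ Z ^ 2 → tau m ≤ Y
  hD : 3 * (1 + U) * Q ≤ (Dl : ℝ) ^ 2
  hD2 : (Dl : ℝ) ^ 2 ≤ Z * Y ^ 18

/-- the relative length of the frozen blocks -/
noncomputable def omg (Y : ℝ) : ℝ := (Y ^ 125)⁻¹

/-- the cut -/
noncomputable def omc (Y : ℝ) : ℝ := (Y ^ 32)⁻¹

/-- the index of the block of `n` -/
noncomputable def jx (Y : ℝ) (n : ℕ) : ℕ := ⌊Real.log n * Y ^ 125⌋₊

/-- the base point of the block `j` -/
noncomputable def nu (Y : ℝ) (j : ℕ) : ℝ := Real.exp (j * omg Y)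

/-- the frozen kernel -/
noncomputable def Fz (G : ℝ → ℝ) (Y Z : ℝ) (j : ℕ) (g : ℤ) (d : ℕ) : ℝ :=
  KK G (omc Y) (g * Z / nu Y j) * hyp (Real.log d - Real.log |nu Y j - g * Z| / 2)

section

variable {G : ℝ → ℝ} {U c Y Z : ℝ} {Q Dl : ℕ} {C : ℕ → ℝ}

theorem Par.logZ (h : Par G U c Y Z Q Dl C) : 0 ≤ Real.log Z := Real.log_nonneg h.h1

theorem Par.base (h : Par G U c Y Z Q Dl C) : 1000 * (Real.log Z + U + 1) ≤ Y := by
  have hU := h.ok.one_le
  have hc := h.ok.one_le'
  have hl := h.logZ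
  refine le_trans ?_ h.hY
  nlinarith

theorem Par.Y2 (h : Par G U c Y Z Q Dl C) : 2000 ≤ Y := by
  have := h.base
  have hU := h.ok.one_le
  have hl := h.logZ
  linarith

theorem Par.Y0 (h : Par G U c Y Z Q Dl C) : 0 < Y := by linarith [h.Y2]

theorem Par.Y1 (h : Par G U c Y Z Q Dl C) : 1 ≤ Y := by linarith [h.Y2]

theorem Par.Z0 (h : Par G U c Y Z Q Dl C) : 0 < Z := by linarith [h.h1]

theorem Par.U1 (h : Par G U c Y Z Q Dl C) : U ≤ Y / 1000 := by
  have := h.base
  have hl := h.logZ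
  linarith

theorem Par.lZ (h : Par G U c Y Z Q Dl C) : Real.log Z ≤ Y / 1000 := by
  have := h.base
  have hU := h.ok.one_le
  linarith

theorem Par.c1 (h : Par G U c Y Z Q Dl C) : c ≤ Y / 2000 := by
  have := h.hY
  have hU := h.ok.one_le
  have hc := h.ok.one_le'
  have hl := h.logZ
  nlinarith

theorem Par.lY0 (h : Par G U c Y Z Q Dl C) : 0 ≤ Real.log Y := Real.log_nonneg h.Y1

theorem Par.lY (h : Par G U c Y Z Q Dl C) : 200 * Real.log Y ≤ Real.log Z := by
  have := Real.log_le_log (pow_pos h.Y0 200) h.hZ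
  rw [Real.log_pow] at this
  exact_mod_cast this

theorem Par.pw (h : Par G U c Y Z Q Dl C) {i j : ℕ} (hij : i ≤ j) : Y ^ i ≤ Y ^ j :=
  pow_le_pow_right₀ h.Y1 hij

theorem Par.pwZ (h : Par G U c Y Z Q Dl C) {i : ℕ} (hi : i ≤ 200) : Y ^ i ≤ Z :=
  (h.pw hi).trans h.hZ

theorem Par.omg0 (h : Par G U c Y Z Q Dl C) : 0 < omg Y := by
  have := h.Y0
  unfold omg; positivity

theorem Par.omc0 (h : Par G U c Y Z Q Dl C) : 0 < omc Y := by
  have := h.Y0
  unfold omc; positivity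

theorem Par.omc1 (h : Par G U c Y Z Q Dl C) : omc Y ≤ 1 / 2000 := by
  unfold omc
  rw [inv_eq_one_div]
  refine one_div_le_one_div_of_le (by norm_num) (h.Y2.trans ?_)
  calc Y = Y ^ 1 := (pow_one Y).symm
    _ ≤ Y ^ 32 := h.pw (by norm_num)

theorem Par.omg_le (h : Par G U c Y Z Q Dl C) : omg Y ≤ omc Y / (100 * Y) := by
  have hY := h.Y0
  unfold omg omc
  rw [inv_eq_one_div, inv_eq_one_div, div_div]
  refine one_div_le_one_div_of_le (by positivity) ?_
  have e1 : 100 * Y ≤ Y ^ 2 := by nlinarith [h.Y2]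
  calc Y ^ 32 * (100 * Y) ≤ Y ^ 32 * Y ^ 2 := by gcongr
    _ = Y ^ 34 := by ring
    _ ≤ Y ^ 125 := h.pw (by norm_num)

theorem Par.omg1 (h : Par G U c Y Z Q Dl C) : omg Y ≤ 1 / 1000 := by
  have h1 := h.omg_le
  have h2 := h.omc1
  have hY := h.Y2
  refine h1.trans ?_
  rw [div_le_iff₀ (by linarith)]
  nlinarith [h.omc0]

theorem nu_pos (Y : ℝ) (j : ℕ) : 0 < nu Y j := Real.exp_pos _

theorem Par.nu_le (h : Par G U c Y Z Q Dl C) {n : ℕ} (hn : 1 ≤ n) : nu Y (jx Y n) ≤ n := by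
  have hY := h.Y0
  have hn0 : (0 : ℝ) < n := by exact_mod_cast hn
  have hl : 0 ≤ Real.log n := Real.log_nonneg (by exact_mod_cast hn)
  unfold nu jx omg
  rw [← Real.le_log_iff_exp_le hn0, ← div_eq_mul_inv, div_le_iff₀ (by positivity)]
  exact Nat.floor_le (by positivity)

theorem Par.lt_nu (h : Par G U c Y Z Q Dl C) {n : ℕ} (hn : 1 ≤ n) :
    Real.log n - Real.log (nu Y (jx Y n)) ≤ omg Y := by
  have hY := h.Y0
  unfold nu jx omg
  rw [Real.log_exp]
  have h1 := Nat.lt_floor_add_one (Real.log n * Y ^ 125)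
  have h2 : Real.log n = (Real.log n * Y ^ 125) * (Y ^ 125)⁻¹ := by
    field_simp
  have h3 : 0 < (Y ^ 125)⁻¹ := by positivity
  nlinarith

/-- the bound for the kernel away from the singularities -/
theorem Par.M (h : Par G U c Y Z Q Dl C) (v : ℝ) (hv : (Y ^ 18)⁻¹ ≤ |v|)
    (hv' : omc Y / 2 ≤ |1 - v|) : |G v| ≤ Y := by
  have hY := h.Y0
  have hc := h.ok.one_le'
  have hU := h.ok.one_le
  have e1 := G_bound h.ok (a := (Y ^ 18)⁻¹) (om := omc Y / 2) (by positivity)
    (inv_le_one_of_one_le₀ (one_le_pow₀ h.Y1)) (by linarith [h.omc0]) (by linarith [h.omc1]) hv hv'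
  refine e1.trans ?_
  have f1 : Real.log ((Y ^ 18)⁻¹) = -(18 * Real.log Y) := by
    rw [Real.log_inv, Real.log_pow]; norm_num
  have f2 : Real.log (omc Y / 2) = -(32 * Real.log Y) - Real.log 2 := by
    unfold omc
    rw [Real.log_div (by positivity) (by norm_num), Real.log_inv, Real.log_pow]; norm_num
  have f3 : Real.log (1 + U) ≤ U := by
    have := Real.log_le_sub_one_of_pos (show 0 < 1 + U by linarith)
    linarith
  have f4 : Real.log 2 ≤ 1 := by
    have := Real.log_two_lt_d9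
    linarith
  have f5 := h.lY
  have f6 := h.lY0
  have f7 := h.hY
  rw [f1, f2]
  calc c * (1 - -(18 * Real.log Y) - (-(32 * Real.log Y) - Real.log 2) + 2 * Real.log (1 + U))
      ≤ c * (1000 * (Real.log Z + U + 1)) := by
        refine mul_le_mul_of_nonneg_left ?_ (by linarith)
        nlinarith [h.logZ]
    _ = 1000 * c * (Real.log Z + U + 1) := by ring
    _ ≤ Y := f7

/-- the bound for the kernel at points with denominator at most `Q` -/
theorem Par.M' (h : Par G U c Y Z Q Dl C) (v : ℝ) (hv : (Y ^ 18)⁻¹ ≤ |v|)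
    (hv' : (Q : ℝ)⁻¹ ≤ |1 - v|) : |G v| ≤ Y := by
  have hY := h.Y0
  have hc := h.ok.one_le'
  have hU := h.ok.one_le
  have hQ0 : (0 : ℝ) < Q := by exact_mod_cast h.hQ1
  have hQ1 : (1 : ℝ) ≤ Q := by exact_mod_cast h.hQ1
  have e1 := G_bound h.ok (a := (Y ^ 18)⁻¹) (om := (Q : ℝ)⁻¹) (by positivity)
    (inv_le_one_of_one_le₀ (one_le_pow₀ h.Y1)) (by positivity) (inv_le_one_of_one_le₀ hQ1) hv hv'
  refine e1.trans ?_
  have f1 : Real.log ((Y ^ 18)⁻¹) = -(18 * Real.log Y) := by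
    rw [Real.log_inv, Real.log_pow]; norm_num
  have f2 : Real.log ((Q : ℝ)⁻¹) = -Real.log Q := Real.log_inv _
  have f3 : Real.log (1 + U) ≤ U := by
    have := Real.log_le_sub_one_of_pos (show 0 < 1 + U by linarith)
    linarith
  have f5 := h.lY
  have f6 := h.lY0
  have f7 := h.hY
  have f8 : Real.log Q ≤ Real.log Z + 17 * Real.log Y := by
    have := Real.log_le_log hQ0 h.hQ
    rw [Real.log_mul h.Z0.ne' (by positivity), Real.log_pow] at this
    exact_mod_cast this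
  rw [f1, f2]
  calc c * (1 - -(18 * Real.log Y) - -Real.log Q + 2 * Real.log (1 + U))
      ≤ c * (1000 * (Real.log Z + U + 1)) := by
        refine mul_le_mul_of_nonneg_left ?_ (by linarith)
        nlinarith [h.logZ]
    _ = 1000 * c * (Real.log Z + U + 1) := by ring
    _ ≤ Y := f7

theorem KKhyp_eq {n : ℝ} (hn : 0 < n) (t : ℝ) (d : ℝ) {om : ℝ} (hom : 0 < om) :
    KK G om (t / n) * hyp (d - Real.log |n - t| / 2) =
      KK G om (t / n) * hyp ((d - Real.log n / 2) - Real.log |1 - t / n| / 2) := by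
  by_cases h : n - t = 0
  · have h1 : t / n = 1 := by
      rw [div_eq_one_iff_eq hn.ne']; linarith
    have h2 : KK G om (t / n) = 0 := by
      unfold KK
      rw [h1, cl_eq_zero hom (by simp [hom.le]), mul_zero]
    rw [h2, zero_mul, zero_mul]
  · have h1 : |n - t| = n * |1 - t / n| := by
      rw [show n - t = n * (1 - t / n) by field_simp, abs_mul, abs_of_pos hn]
    have h2 : |1 - t / n| ≠ 0 := by
      rw [abs_ne_zero]
      intro h3
      apply h
      have : t / n = 1 := by linarith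
      rw [div_eq_one_iff_eq hn.ne'] at this
      linarith
    rw [h1, Real.log_mul hn.ne' h2]
    congr 2
    ring

/-- freezing: `t` is `Z` or a prime of the window -/
theorem Par.freeze (h : Par G U c Y Z Q Dl C) {t : ℝ} (ht : |Real.log (t / Z)| ≤ omg Y)
    (ht0 : 0 < t) {n : ℕ} (hn : 1 ≤ n) (hnQ : n ≤ Q) {g : ℤ} (hg : g ≠ 0) (d : ℕ) :
    |KK G (omc Y) (g * t / n) * hyp (Real.log d - Real.log |(n : ℝ) - g * t| / 2) -
      Fz G Y Z (jx Y n) g d| ≤ 2 * Y ^ 99 * omg Y := by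
  have hY := h.Y0
  have hY2 := h.Y2
  have hZ0 := h.Z0
  have hU := h.ok.one_le
  have hc := h.ok.one_le'
  have hom := h.omc0
  have hog := h.omg0
  have hn0 : (0 : ℝ) < n := by exact_mod_cast hn
  set ν := nu Y (jx Y n) with hν
  have hν0 : 0 < ν := nu_pos _ _
  have hνn : ν ≤ n := h.nu_le hn
  have hνl := h.lt_nu hn
  rw [← hν] at hνl
  unfold Fz
  rw [← hν, KKhyp_eq hn0 _ _ hom, KKhyp_eq hν0 _ _ hom]
  have hR : 0 ≤ 2 * Y ^ 99 * omg Y := by positivity
  have hgR : (1 : ℝ) ≤ |(g : ℝ)| := by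
    have : 1 ≤ |g| := Int.one_le_abs hg
    exact_mod_cast this
  set u := (g : ℝ) * t / n with hu
  set v := (g : ℝ) * Z / ν with hv
  have huabs : |u| = |(g : ℝ)| * t / n := by
    rw [hu, abs_div, abs_mul, abs_of_pos ht0, abs_of_pos hn0]
  have hvabs : |v| = |(g : ℝ)| * Z / ν := by
    rw [hv, abs_div, abs_mul, abs_of_pos hZ0, abs_of_pos hν0]
  have hu0 : 0 < |u| := by rw [huabs]; positivity
  have hv0 : 0 < |v| := by rw [hvabs]; positivity
  -- the logarithm of the quotient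
  have hlog : |Real.log (|u|) - Real.log (|v|)| ≤ 2 * omg Y := by
    have e1 : Real.log |u| - Real.log |v| = Real.log (t / Z) - (Real.log n - Real.log ν) := by
      rw [huabs, hvabs, Real.log_div (by positivity) hn0.ne', Real.log_div (by positivity) hν0.ne',
        Real.log_mul (by positivity) ht0.ne', Real.log_mul (by positivity) hZ0.ne',
        Real.log_div ht0.ne' hZ0.ne']
      ring
    rw [e1]
    have e2 : 0 ≤ Real.log n - Real.log ν := by
      have := Real.log_le_log hν0 hνn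
      linarith
    rw [abs_le] at ht ⊢
    constructor <;> linarith [ht.1, ht.2]
  by_cases hbig : U < |u| ∧ U < |v|
  · unfold KK
    rw [h.ok.supp u hbig.1, h.ok.supp v hbig.2]
    simpa using hR
  have hlog' := hlog
  rw [abs_le] at hlog'
  have hog1 := h.omg1
  have hsmall : |v| ≤ 2 * U := by
    by_cases h1 : |v| ≤ U
    · linarith
    · push Not at h1
      have h2 : |u| ≤ U := by
        by_contra h3
        push Not at h3
        exact hbig ⟨h3, h1⟩
      have h3 : Real.log |v| ≤ Real.log (2 * U) := by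
        have e1 : Real.log |u| ≤ Real.log U := Real.log_le_log hu0 h2
        rw [Real.log_mul (by norm_num) (by linarith)]
        have e2 := Real.log_two_gt_d9
        linarith [hlog'.1]
      exact (Real.log_le_log_iff hv0 (by linarith)).1 h3
  have huv : |u - v| ≤ 10 * U * omg Y := by
    -- u = v * exp s with |s| ≤ 2 omg
    set s := Real.log |u| - Real.log |v| with hs
    have e1 : |u| = |v| * Real.exp s := by
      rw [hs, Real.exp_sub, Real.exp_log hu0, Real.exp_log hv0]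
      field_simp
    have hsame : u = v * Real.exp s := by
      have e2 : u = g * (t / n) := by rw [hu]; ring
      have e3 : v = g * (Z / ν) := by rw [hv]; ring
      have e4 : |u| = |(g : ℝ)| * (t / n) := by rw [huabs]; ring
      have e5 : |v| = |(g : ℝ)| * (Z / ν) := by rw [hvabs]; ring
      have hg0 : |(g : ℝ)| ≠ 0 := by positivity
      have e6 : t / n = Z / ν * Real.exp s := by
        rw [e4, e5, mul_assoc] at e1
        exact mul_left_cancel₀ hg0 e1
      rw [e2, e3, e6]; ring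
    rw [hsame, show v * Real.exp s - v = v * (Real.exp s - 1) by ring, abs_mul]
    have e7 : |Real.exp s - 1| ≤ 2 * |s| := by
      have := Real.abs_exp_sub_one_le (x := s) (by linarith)
      exact this
    calc |v| * |Real.exp s - 1| ≤ (2 * U) * (2 * (2 * omg Y)) := by
          gcongr
          exact e7.trans (by linarith)
      _ ≤ 10 * U * omg Y := by nlinarith
  -- lower bounds
  have hQr : (n : ℝ) ≤ Z * Y ^ 17 := le_trans (by exact_mod_cast hnQ) h.hQ
  have ha : (0 : ℝ) < (Y ^ 18)⁻¹ := by positivity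
  have hva : (Y ^ 17)⁻¹ ≤ |v| := by
    rw [hvabs, inv_eq_one_div, div_le_div_iff₀ (by positivity) hν0]
    calc 1 * ν ≤ Z * Y ^ 17 := by rw [one_mul]; exact hνn.trans hQr
      _ ≤ |(g : ℝ)| * Z * Y ^ 17 := by
        rw [mul_assoc]
        exact le_mul_of_one_le_left (by positivity) hgR
  have h1817 : (Y ^ 18)⁻¹ ≤ (Y ^ 17)⁻¹ / 2 := by
    rw [inv_eq_one_div, inv_eq_one_div, div_div]
    refine one_div_le_one_div_of_le (by positivity) ?_
    calc Y ^ 17 * 2 ≤ Y ^ 17 * Y := by gcongr; linarith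
      _ = Y ^ 18 := by ring
  have hva' : (Y ^ 18)⁻¹ ≤ |v| := by
    have : 0 < (Y ^ 17)⁻¹ := by positivity
    linarith
  have hua' : (Y ^ 18)⁻¹ ≤ |u| := by
    have e1 : |v| ≤ 2 * |u| := by
      have e2 : Real.log |v| ≤ Real.log (2 * |u|) := by
        rw [Real.log_mul (by norm_num) hu0.ne']
        have e2 := Real.log_two_gt_d9
        linarith [hlog'.1]
      exact (Real.log_le_log_iff hv0 (by linarith)).1 e2
    linarith
  have huv' : |u - v| ≤ omc Y / 2 := by
    refine huv.trans ?_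
    have e1 := h.omg_le
    have e2 := h.U1
    calc 10 * U * omg Y ≤ 10 * (Y / 1000) * (omc Y / (100 * Y)) := by gcongr
      _ = omc Y / 10000 := by field_simp; norm_num
      _ ≤ omc Y / 2 := by linarith
  have hmain := Psi_lip h.ok ha hom h.Y0.le h.M (l := Real.log d - Real.log n / 2)
    (l' := Real.log d - Real.log ν / 2) hua' hva' huv'
  refine hmain.trans ?_
  have hll : |Real.log d - Real.log n / 2 - (Real.log d - Real.log ν / 2)| ≤ omg Y := by
    have e2 : 0 ≤ Real.log n - Real.log ν := by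
      have := Real.log_le_log hν0 hνn
      linarith
    rw [abs_le]
    constructor <;> linarith
  have hcoef : c * (2 / (Y ^ 18)⁻¹ + 4 / omc Y) ^ 3 + 2 * Y / omc Y ≤ Y ^ 98 / 10 := by
    unfold omc
    rw [div_inv_eq_mul, div_inv_eq_mul, div_inv_eq_mul]
    have e1 : 2 * Y ^ 18 + 4 * Y ^ 32 ≤ 5 * Y ^ 32 := by
      have : 2 * Y ^ 18 ≤ Y ^ 32 := by
        calc 2 * Y ^ 18 ≤ Y * Y ^ 18 := by gcongr; linarith
          _ = Y ^ 19 := by ring
          _ ≤ Y ^ 32 := h.pw (by norm_num)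
      linarith
    have e2 : (2 * Y ^ 18 + 4 * Y ^ 32) ^ 3 ≤ (5 * Y ^ 32) ^ 3 := by gcongr
    have e3 : c * (2 * Y ^ 18 + 4 * Y ^ 32) ^ 3 ≤ Y ^ 97 / 10 := by
      calc c * (2 * Y ^ 18 + 4 * Y ^ 32) ^ 3 ≤ (Y / 2000) * (5 * Y ^ 32) ^ 3 := by
            have := h.c1
            gcongr
        _ = Y ^ 97 / 16 := by ring
        _ ≤ Y ^ 97 / 10 := by
          have : 0 < Y ^ 97 := by positivity
          linarith
    have e4 : 2 * Y * Y ^ 32 ≤ Y ^ 97 := by
      calc 2 * Y * Y ^ 32 ≤ Y * Y * Y ^ 32 := by gcongr; linarith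
        _ = Y ^ 34 := by ring
        _ ≤ Y ^ 97 := h.pw (by norm_num)
    have e5 : Y ^ 98 = Y * Y ^ 97 := by ring
    have e6 : 0 < Y ^ 97 := by positivity
    nlinarith
  calc (c * (2 / (Y ^ 18)⁻¹ + 4 / omc Y) ^ 3 + 2 * Y / omc Y) * |u - v| +
        Y * |Real.log d - Real.log n / 2 - (Real.log d - Real.log ν / 2)|
      ≤ (Y ^ 98 / 10) * (10 * U * omg Y) + Y * omg Y := by gcongr
    _ ≤ (Y ^ 98 / 10) * (10 * Y * omg Y) + Y ^ 99 * omg Y := by
        have e1 : U ≤ Y := by linarith [h.U1]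
        have e2 : Y ≤ Y ^ 99 := by
          calc Y = Y ^ 1 := (pow_one Y).symm
            _ ≤ Y ^ 99 := h.pw (by norm_num)
        gcongr
    _ = 2 * Y ^ 99 * omg Y := by ring

end

end Pool.Agent.LSPO
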