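import Pool.Agent.Lib_helper31.LSP.Sums

/-! Part O: the pointwise comparison -/

set_option autoImplicit false

namespace Pool.Agent.LSPO

open Finset

section

variable {G : ℝ → ℝ} {U c Y Z : ℝ} {Q Dl : ℕ} {C : ℕ → ℝ}

theorem Par.win (h : Par G U c Y Z Q Dl C) {t : ℝ} (ht0 : 0 < t)
    (ht : |Real.log (t / Z)| ≤ omg Y) : Z / 2 ≤ t ∧ t ≤ 2 * Z := by
  have hZ0 := h.Z0
  have h1 := h.omg1
  rw [abs_le] at ht
  have hq : 0 < t / Z := by positivity
  have e2 := Real.log_two_gt_d9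
  constructor
  · have e1 : Real.log (1 / 2) ≤ Real.log (t / Z) := by
      rw [Real.log_div (by norm_num) (by norm_num), Real.log_one]
      linarith [ht.1]
    have e3 := (Real.log_le_log_iff (by norm_num) hq).1 e1
    rw [le_div_iff₀ hZ0] at e3
    linarith
  · have e1 : Real.log (t / Z) ≤ Real.log 2 := by linarith [ht.2]
    have e3 := (Real.log_le_log_iff hq (by norm_num)).1 e1
    rw [div_le_iff₀ hZ0] at e3
    exact e3

theorem Par.low (h : Par G U c Y Z Q Dl C) {t : ℝ} (ht : Z / 2 ≤ t) {s : ℝ} (hs : 0 < s)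
    (hsQ : s ≤ Q) {g : ℤ} (hg : g ≠ 0) : (Y ^ 18)⁻¹ ≤ |(g : ℝ) * t / s| := by
  have hY0 := h.Y0
  have hZ0 := h.Z0
  have ht0 : 0 < t := by linarith
  have hgR : (1 : ℝ) ≤ |(g : ℝ)| := by
    have : 1 ≤ |g| := Int.one_le_abs hg
    exact_mod_cast this
  rw [abs_div, abs_mul, abs_of_pos ht0, abs_of_pos hs, inv_eq_one_div,
    div_le_div_iff₀ (by positivity) hs]
  calc 1 * s ≤ Z * Y ^ 17 := by rw [one_mul]; exact hsQ.trans h.hQ
    _ = Z / 2 * (2 * Y ^ 17) := by ring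
    _ ≤ t * (Y * Y ^ 17) := by
        have := h.Y2
        gcongr
        linarith
    _ = 1 * (t * Y ^ 18) := by ring
    _ ≤ |(g : ℝ)| * (t * Y ^ 18) := by gcongr
    _ = |(g : ℝ)| * t * Y ^ 18 := by ring

theorem Par.Fz_le (h : Par G U c Y Z Q Dl C) {n : ℕ} (hn : 1 ≤ n) (hnQ : n ≤ Q) {g : ℤ}
    (hg : g ≠ 0) (d : ℕ) : |Fz G Y Z (jx Y n) g d| ≤ Y := by
  have hY0 := h.Y0
  have hν0 := nu_pos Y (jx Y n)
  have hνn := h.nu_le hn
  have hνQ : nu Y (jx Y n) ≤ Q := hνn.trans (by exact_mod_cast hnQ)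
  have hlow := h.low (t := Z) (by linarith [h.Z0]) hν0 hνQ hg
  unfold Fz
  rw [abs_mul, abs_of_nonneg (hyp_nonneg _)]
  refine (mul_le_of_le_one_right (abs_nonneg _) (hyp_le_one _)).trans ?_
  unfold KK
  by_cases h1 : |1 - (g : ℝ) * Z / nu Y (jx Y n)| ≤ omc Y
  · rw [cl_eq_zero h.omc0 h1, mul_zero, abs_zero]
    exact hY0.le
  · push Not at h1
    rw [abs_mul, abs_of_nonneg (cl_nonneg _ _)]
    refine (mul_le_of_le_one_right (abs_nonneg _) (cl_le_one _ _)).trans ?_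
    exact h.M _ hlow (by linarith [h.omc0])

/-- the divisors of `n - g p` up to `Dl` carry everything -/
theorem Par.div_sum (h : Par G U c Y Z Q Dl C) {p n : ℕ} (hp0 : 0 < p) (hn : 1 ≤ n)
    (hnQ : n ≤ Q) {g : ℤ} (hm : (n : ℤ) - g * p ≠ 0) :
    tau ((n : ℤ) - g * p).natAbs * G ((g : ℝ) * p / n) =
      2 * ∑ d ∈ (Finset.Icc 1 Dl).filter (fun d : ℕ => (d : ℤ) ∣ (n : ℤ) - g * p),
        G ((g : ℝ) * p / n) * hyp (Real.log d - Real.log |(n : ℝ) - g * p| / 2) := by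
  by_cases hG0 : G ((g : ℝ) * p / n) = 0
  · rw [hG0, mul_zero]
    simp
  have hn0 : (0 : ℝ) < n := by exact_mod_cast hn
  have hpr : (0 : ℝ) < p := by exact_mod_cast hp0
  have hu : |(g : ℝ) * p / n| ≤ U := by
    by_contra h1
    push Not at h1
    exact hG0 (h.ok.supp _ h1)
  set m := ((n : ℤ) - g * p).natAbs with hmdef
  have hm1 : 1 ≤ m := Int.natAbs_pos.2 hm
  have hmr : (m : ℝ) = |(n : ℝ) - g * p| := by
    rw [hmdef, ← Int.cast_natCast, Int.natCast_natAbs, Int.cast_abs]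
    push_cast
    rfl
  have hm0 : (0 : ℝ) < m := by exact_mod_cast hm1
  have hmle : 3 * (m : ℝ) ≤ (Dl : ℝ) ^ 2 := by
    refine le_trans ?_ h.hD
    rw [mul_assoc]
    refine mul_le_mul_of_nonneg_left ?_ (by norm_num)
    rw [hmr]
    have e1 : (n : ℝ) - g * p = n * (1 - g * p / n) := by field_simp
    rw [e1, abs_mul, abs_of_pos hn0, mul_comm]
    have e2 : |1 - (g : ℝ) * p / n| ≤ 1 + U := by
      calc |1 - (g : ℝ) * p / n| ≤ |(1 : ℝ)| + |(g : ℝ) * p / n| := abs_sub _ _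
        _ ≤ 1 + U := by rw [abs_one]; linarith
    have e3 : (n : ℝ) ≤ Q := by exact_mod_cast hnQ
    have e4 := h.ok.one_le
    gcongr
  rw [tau_hyp hm1, mul_assoc, Finset.sum_mul]
  congr 1
  have hsub : (Finset.Icc 1 Dl).filter (fun d : ℕ => (d : ℤ) ∣ (n : ℤ) - g * p) ⊆ m.divisors := by
    intro d hd
    rw [Finset.mem_filter, Finset.mem_Icc] at hd
    rw [Nat.mem_divisors]
    exact ⟨Int.natCast_dvd.1 hd.2, by omega⟩
  rw [← hmr]
  symm
  have hs := Finset.sum_subset hsub (f := fun d : ℕ => hyp (Real.log d - Real.log m / 2) *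
    G ((g : ℝ) * p / n)) ?_
  · rw [← hs]
    exact Finset.sum_congr rfl fun d _ => mul_comm _ _
  · intro d hd hd'
    rw [Nat.mem_divisors] at hd
    have hd1 : 0 < d := Nat.pos_of_dvd_of_pos hd.1 hm1
    have hbig : Dl < d := by
      by_contra h1
      push Not at h1
      apply hd'
      rw [Finset.mem_filter, Finset.mem_Icc]
      exact ⟨⟨hd1, h1⟩, Int.natCast_dvd.2 hd.1⟩
    have e1 : hyp (Real.log d - Real.log m / 2) = 0 := by
      apply hyp_eq_zero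
      have e2 : Real.log (3 * (m : ℝ)) ≤ Real.log ((d : ℝ) ^ 2) := by
        refine Real.log_le_log (by positivity) (hmle.trans ?_)
        have : (Dl : ℝ) ≤ d := by exact_mod_cast hbig.le
        gcongr
      rw [Real.log_mul (by norm_num) hm0.ne', Real.log_pow] at e2
      push_cast at e2
      have e3 : 1 ≤ Real.log 3 := by
        rw [Real.le_log_iff_exp_le (by norm_num)]
        linarith [Real.exp_one_lt_d9]
      linarith
    rw [e1, zero_mul]

/-- the error of one pair `(n, g)` -/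
theorem Par.termA (h : Par G U c Y Z Q Dl C) {p n : ℕ} (hp0 : 0 < p)
    (hw : |Real.log ((p : ℝ) / Z)| ≤ omg Y) (hn : 1 ≤ n) (hnQ : n ≤ Q) (hpn : ¬ p ∣ n) {g : ℤ}
    (hg : g ≠ 0) (hgG : |(g : ℝ)| ≤ Gm U Y) :
    |tau ((n : ℤ) - g * p).natAbs * G ((g : ℝ) * p / n) -
      2 * ∑ d ∈ (Finset.Icc 1 Dl).filter (fun d : ℕ => (d : ℤ) ∣ (n : ℤ) - g * p),
        Fz G Y Z (jx Y n) g d| ≤
      4 * Y ^ 100 * omg Y + (if |1 - (g : ℝ) * p / n| < 2 * omc Y then 4 * Y ^ 2 else 0) := by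
  have hY0 := h.Y0
  have hZ0 := h.Z0
  have hn0 : (0 : ℝ) < n := by exact_mod_cast hn
  have hpr : (0 : ℝ) < p := by exact_mod_cast hp0
  have hwin := h.win hpr hw
  have hm : (n : ℤ) - g * p ≠ 0 := by
    intro h0
    apply hpn
    have : (p : ℤ) ∣ (n : ℤ) := ⟨g, by linarith [mul_comm g (p : ℤ)]⟩
    exact_mod_cast this
  rw [h.div_sum hp0 hn hnQ hm, ← mul_sub, ← Finset.sum_sub_distrib]
  set m := ((n : ℤ) - g * p).natAbs with hmdef
  have hm1 : 1 ≤ m := Int.natAbs_pos.2 hm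
  have hmr : (m : ℝ) = |(n : ℝ) - g * p| := by
    rw [hmdef, ← Int.cast_natCast, Int.natCast_natAbs, Int.cast_abs]
    push_cast
    rfl
  have hmZ : (m : ℝ) ≤ Z ^ 2 := by
    rw [hmr]
    have e1 : |(n : ℝ) - g * p| ≤ n + |(g : ℝ)| * p := by
      refine (abs_sub _ _).trans ?_
      rw [abs_of_pos hn0, abs_mul, abs_of_pos hpr]
    have e2 : (n : ℝ) ≤ Z * Y ^ 17 := le_trans (by exact_mod_cast hnQ) h.hQ
    have e3 : |(g : ℝ)| * p ≤ (Y ^ 18 / 500) * (2 * Z) := by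
      have := h.Gm_le
      gcongr
      · exact hgG.trans this
      · exact hwin.2
    have e4 : Y ^ 17 ≤ Y ^ 18 / 500 := by
      have : Y ^ 18 = Y * Y ^ 17 := by ring
      rw [this]
      have h2 := h.Y2
      have h3 : 0 < Y ^ 17 := by positivity
      nlinarith
    have e5 : Y ^ 18 ≤ Z := h.pwZ (by norm_num)
    calc |(n : ℝ) - g * p| ≤ n + |(g : ℝ)| * p := e1
      _ ≤ Z * Y ^ 17 + (Y ^ 18 / 500) * (2 * Z) := add_le_add e2 e3
      _ ≤ Z * (Y ^ 18 / 500) + (Y ^ 18 / 500) * (2 * Z) := by gcongr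
      _ = Z * (3 * Y ^ 18 / 500) := by ring
      _ ≤ Z * Z := by
          have : 0 < Y ^ 18 := by positivity
          gcongr
          linarith
      _ = Z ^ 2 := by ring
  have htm : tau m ≤ Y := h.ht m hm1 hmZ
  have hcard : (#((Finset.Icc 1 Dl).filter (fun d : ℕ => (d : ℤ) ∣ (n : ℤ) - g * p)) : ℝ) ≤ Y := by
    refine le_trans ?_ htm
    unfold tau
    have hsub : (Finset.Icc 1 Dl).filter (fun d : ℕ => (d : ℤ) ∣ (n : ℤ) - g * p) ⊆
        m.divisors := by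
      intro d hd
      rw [Finset.mem_filter, Finset.mem_Icc] at hd
      rw [Nat.mem_divisors]
      exact ⟨Int.natCast_dvd.1 hd.2, by omega⟩
    exact_mod_cast Finset.card_le_card hsub
  have hgen : ∀ B : ℝ, 0 ≤ B → (∀ d ∈ (Finset.Icc 1 Dl).filter
      (fun d : ℕ => (d : ℤ) ∣ (n : ℤ) - g * p),
      |G ((g : ℝ) * p / n) * hyp (Real.log d - Real.log |(n : ℝ) - g * p| / 2) -
        Fz G Y Z (jx Y n) g d| ≤ B) →
      |2 * ∑ d ∈ (Finset.Icc 1 Dl).filter (fun d : ℕ => (d : ℤ) ∣ (n : ℤ) - g * p),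
        (G ((g : ℝ) * p / n) * hyp (Real.log d - Real.log |(n : ℝ) - g * p| / 2) -
        Fz G Y Z (jx Y n) g d)| ≤ 2 * (Y * B) := by
    intro B hB hall
    rw [abs_mul, abs_of_pos (by norm_num : (0 : ℝ) < 2)]
    refine mul_le_mul_of_nonneg_left ?_ (by norm_num)
    refine (Finset.abs_sum_le_sum_abs _ _).trans ?_
    refine (Finset.sum_le_sum hall).trans ?_
    rw [Finset.sum_const, nsmul_eq_mul]
    gcongr
  by_cases hs : |1 - (g : ℝ) * p / n| < 2 * omc Y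
  · rw [if_pos hs]
    have h1 := hgen (2 * Y) (by positivity) ?_
    · refine h1.trans ?_
      have : 0 ≤ 4 * Y ^ 100 * omg Y := by have := h.omg0; positivity
      linarith [show 2 * (Y * (2 * Y)) = 4 * Y ^ 2 by ring]
    · intro d _
      have e1 : |G ((g : ℝ) * p / n)| ≤ Y := by
        refine h.M' _ (h.low hwin.1 hn0 (by exact_mod_cast hnQ) hg) ?_
        have e2 : |1 - (g : ℝ) * p / n| = m / n := by
          rw [hmr, show 1 - (g : ℝ) * p / n = ((n : ℝ) - g * p) / n by field_simp, abs_div,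
            abs_of_pos hn0]
        rw [e2, inv_eq_one_div]
        have hQ0 : (0 : ℝ) < Q := by exact_mod_cast h.hQ1
        rw [div_le_div_iff₀ hQ0 hn0]
        have e3 : (1 : ℝ) ≤ m := by exact_mod_cast hm1
        have e4 : (n : ℝ) ≤ Q := by exact_mod_cast hnQ
        nlinarith
      have e5 := h.Fz_le hn hnQ hg d
      refine (abs_sub _ _).trans ?_
      rw [abs_mul, abs_of_nonneg (hyp_nonneg _)]
      have e6 := mul_le_of_le_one_right (abs_nonneg (G ((g : ℝ) * p / n)))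
        (hyp_le_one (Real.log d - Real.log |(n : ℝ) - g * p| / 2))
      linarith
  · rw [if_neg hs, add_zero]
    push Not at hs
    have h1 := hgen (2 * Y ^ 99 * omg Y) (by have := h.omg0; positivity) ?_
    · refine h1.trans (le_of_eq ?_)
      ring
    · intro d _
      have e1 := h.freeze hw hpr hn hnQ hg d
      have e2 : KK G (omc Y) ((g : ℝ) * p / n) = G ((g : ℝ) * p / n) := by
        unfold KK
        rw [cl_eq_one h.omc0 hs, mul_one]
      rw [e2] at e1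
      exact e1

theorem Par.partA (h : Par G U c Y Z Q Dl C) (S : Finset ℤ) (hS : ∀ g ∈ S, g ≠ 0) {p : ℕ}
    (hp0 : 0 < p) (hw : |Real.log ((p : ℝ) / Z)| ≤ omg Y)
    (hCp : ∀ n ∈ Finset.Icc 1 Q, C n ≠ 0 → ¬ p ∣ n) :
    |ODg C G Q S p - 4 * Real.pi * ∑ n ∈ Finset.Icc 1 Q, C n * ∑ g ∈ S, tau g.natAbs *
      ∑ d ∈ (Finset.Icc 1 Dl).filter (fun d : ℕ => (d : ℤ) ∣ (n : ℤ) - g * p),
        Fz G Y Z (jx Y n) g d| ≤ 1 / (4 * Y) := by
  have hY0 := h.Y0
  have hY2 := h.Y2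
  have hom := h.omc0
  have hog := h.omg0
  have hpr : (0 : ℝ) < p := by exact_mod_cast hp0
  have hwin := h.win hpr hw
  set T : ℕ → ℤ → ℝ := fun n g => tau ((n : ℤ) - g * p).natAbs * G ((g : ℝ) * p / n) -
      2 * ∑ d ∈ (Finset.Icc 1 Dl).filter (fun d : ℕ => (d : ℤ) ∣ (n : ℤ) - g * p),
        Fz G Y Z (jx Y n) g d with hT
  have e1 : ODg C G Q S p - 4 * Real.pi * ∑ n ∈ Finset.Icc 1 Q, C n * ∑ g ∈ S, tau g.natAbs *
      ∑ d ∈ (Finset.Icc 1 Dl).filter (fun d : ℕ => (d : ℤ) ∣ (n : ℤ) - g * p),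
        Fz G Y Z (jx Y n) g d =
      2 * Real.pi * ∑ n ∈ Finset.Icc 1 Q, C n * ∑ g ∈ S, tau g.natAbs * T n g := by
    unfold ODg
    rw [show (4 : ℝ) * Real.pi = 2 * Real.pi * 2 by ring, mul_assoc (2 * Real.pi), ← mul_sub,
      Finset.mul_sum, ← Finset.sum_sub_distrib]
    congr 1
    refine Finset.sum_congr rfl fun n _ => ?_
    rw [mul_left_comm, ← mul_sub, Finset.mul_sum, ← Finset.sum_sub_distrib]
    congr 1
    refine Finset.sum_congr rfl fun g _ => ?_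
    simp only [hT]
    ring
  rw [e1]
  set S' := S.filter (fun g : ℤ => |(g : ℝ)| ≤ Gm U Y) with hS'
  -- bound of one term
  have e2 : ∀ n ∈ Finset.Icc 1 Q, |C n * ∑ g ∈ S, tau g.natAbs * T n g| ≤
      ∑ g ∈ S', tau g.natAbs * (|C n| * (4 * Y ^ 100 * omg Y) +
        |C n| * (if |1 - (g : ℝ) * p / n| < 2 * omc Y then 4 * Y ^ 2 else 0)) := by
    intro n hn
    rw [Finset.mem_Icc] at hn
    by_cases hC0 : C n = 0
    · rw [hC0]
      simp
    have hpn := hCp n (Finset.mem_Icc.2 hn) hC0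
    have e3 : ∑ g ∈ S, tau g.natAbs * T n g = ∑ g ∈ S', tau g.natAbs * T n g := by
      rw [hS']
      symm
      refine Finset.sum_subset (Finset.filter_subset _ _) fun g hg hg' => ?_
      rw [Finset.mem_filter, not_and] at hg'
      have hbig := hg' hg
      push Not at hbig
      have f1 := h.zero_G hwin.1 hn.1 hn.2 hbig
      have f2 : ∑ d ∈ (Finset.Icc 1 Dl).filter (fun d : ℕ => (d : ℤ) ∣ (n : ℤ) - g * p),
          Fz G Y Z (jx Y n) g d = 0 :=
        Finset.sum_eq_zero fun d _ => h.zero_F hn.1 hn.2 hbig d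
      simp only [hT]
      rw [f1, f2]
      simp
    rw [e3, abs_mul]
    have e4 : |∑ g ∈ S', tau g.natAbs * T n g| ≤ ∑ g ∈ S', tau g.natAbs *
        (4 * Y ^ 100 * omg Y + (if |1 - (g : ℝ) * p / n| < 2 * omc Y then 4 * Y ^ 2 else 0)) := by
      refine (Finset.abs_sum_le_sum_abs _ _).trans (Finset.sum_le_sum fun g hg => ?_)
      rw [hS', Finset.mem_filter] at hg
      rw [abs_mul, abs_of_nonneg (tau_nonneg _)]
      exact mul_le_mul_of_nonneg_left (h.termA hp0 hw hn.1 hn.2 hpn (hS g hg.1) hg.2)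
        (tau_nonneg _)
    refine (mul_le_mul_of_nonneg_left e4 (abs_nonneg _)).trans (le_of_eq ?_)
    rw [Finset.mul_sum]
    refine Finset.sum_congr rfl fun g _ => ?_
    ring
  have e5 : |∑ n ∈ Finset.Icc 1 Q, C n * ∑ g ∈ S, tau g.natAbs * T n g| ≤
      (4 * Y ^ 100 * omg Y) * ((Y ^ 2 / 100) * (Y ^ 19 / 100)) +
        (4 * Y ^ 2) * ((13 * Y * omc Y) * (Y ^ 19 / 100)) := by
    refine (Finset.abs_sum_le_sum_abs _ _).trans ((Finset.sum_le_sum e2).trans ?_)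
    rw [Finset.sum_comm]
    have e6 : ∀ g ∈ S', ∑ n ∈ Finset.Icc 1 Q, tau g.natAbs * (|C n| * (4 * Y ^ 100 * omg Y) +
        |C n| * (if |1 - (g : ℝ) * p / n| < 2 * omc Y then 4 * Y ^ 2 else 0)) ≤
        tau g.natAbs * ((Y ^ 2 / 100) * (4 * Y ^ 100 * omg Y) +
          (13 * Y * omc Y) * (4 * Y ^ 2)) := by
      intro g hg
      rw [hS', Finset.mem_filter] at hg
      rw [← Finset.mul_sum, Finset.sum_add_distrib, ← Finset.sum_mul]
      refine mul_le_mul_of_nonneg_left ?_ (tau_nonneg _)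
      refine add_le_add ?_ ?_
      · exact mul_le_mul_of_nonneg_right h.sumC (by positivity)
      · have f1 : ∑ n ∈ Finset.Icc 1 Q,
            |C n| * (if |1 - (g : ℝ) * p / n| < 2 * omc Y then 4 * Y ^ 2 else 0) =
            (∑ n ∈ (Finset.Icc 1 Q).filter (fun n : ℕ => |1 - (g : ℝ) * p / n| < 2 * omc Y),
              |C n|) * (4 * Y ^ 2) := by
          rw [Finset.sum_mul, Finset.sum_filter]
          refine Finset.sum_congr rfl fun n _ => ?_
          split_ifs <;> simp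
        rw [f1]
        exact mul_le_mul_of_nonneg_right (h.sing hwin.1 (hS g hg.1)) (by positivity)
    refine (Finset.sum_le_sum e6).trans ?_
    rw [← Finset.sum_mul]
    have e7 := h.sumg S hS
    rw [← hS'] at e7
    calc (∑ g ∈ S', tau g.natAbs) * ((Y ^ 2 / 100) * (4 * Y ^ 100 * omg Y) +
          (13 * Y * omc Y) * (4 * Y ^ 2))
        ≤ (Y ^ 19 / 100) * ((Y ^ 2 / 100) * (4 * Y ^ 100 * omg Y) +
          (13 * Y * omc Y) * (4 * Y ^ 2)) := by gcongr
      _ = _ := by ring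
  rw [abs_mul, abs_of_pos (by positivity : 0 < 2 * Real.pi)]
  have hpi : Real.pi ≤ 4 := Real.pi_le_four
  have e8 : omg Y = (Y ^ 125)⁻¹ := rfl
  have e9 : omc Y = (Y ^ 32)⁻¹ := rfl
  rw [e8, e9] at e5
  have g1 : (4 * Y ^ 100 * (Y ^ 125)⁻¹) * ((Y ^ 2 / 100) * (Y ^ 19 / 100)) ≤ 1 / (1000 * Y) := by
    have e1 : (4 * Y ^ 100 * (Y ^ 125)⁻¹) * ((Y ^ 2 / 100) * (Y ^ 19 / 100)) =
        4 / 10000 * (1 / Y ^ 4) := by field_simp; norm_num
    rw [e1]
    have e2 : 1 / Y ^ 4 ≤ 1 / Y := by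
      refine one_div_le_one_div_of_le hY0 ?_
      calc Y = Y ^ 1 := (pow_one Y).symm
        _ ≤ Y ^ 4 := h.pw (by norm_num)
    have e3 : 0 < 1 / Y := by positivity
    have e4 : 1 / (1000 * Y) = 1 / 1000 * (1 / Y) := by field_simp
    rw [e4]
    linarith
  have g2 : (4 * Y ^ 2) * ((13 * Y * (Y ^ 32)⁻¹) * (Y ^ 19 / 100)) ≤ 1 / (1000 * Y) := by
    have e1 : (4 * Y ^ 2) * ((13 * Y * (Y ^ 32)⁻¹) * (Y ^ 19 / 100)) =
        52 / 100 * (1 / Y ^ 10) := by field_simp; norm_num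
    rw [e1]
    have e2 : 1 / Y ^ 10 ≤ 1 / (2000 * Y) := by
      refine one_div_le_one_div_of_le (by positivity) ?_
      calc 2000 * Y ≤ Y * Y := by gcongr
        _ = Y ^ 2 := by ring
        _ ≤ Y ^ 10 := h.pw (by norm_num)
    have e3 : 0 < 1 / Y := by positivity
    have e4 : 1 / (1000 * Y) = 1 / 1000 * (1 / Y) := by field_simp
    have e5 : 1 / (2000 * Y) = 1 / 2000 * (1 / Y) := by field_simp
    rw [e4]
    rw [e5] at e2
    linarith
  have hY4 : 1 / (4 * Y) = 1 / 4 * (1 / Y) := by field_simp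
  have hY1000 : 1 / (1000 * Y) = 1 / 1000 * (1 / Y) := by field_simp
  have e3 : 0 < 1 / Y := by positivity
  calc 2 * Real.pi * |∑ n ∈ Finset.Icc 1 Q, C n * ∑ g ∈ S, tau g.natAbs * T n g|
      ≤ 2 * 4 * (1 / (1000 * Y) + 1 / (1000 * Y)) := by
        gcongr
        exact e5.trans (add_le_add g1 g2)
    _ ≤ 1 / (4 * Y) := by
        rw [hY4, hY1000]
        linarith

end

end Pool.Agent.LSPO
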