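import Pool.Agent.Lib_helper31.LSP.PtA

/-! Part O: the principal part is frozen -/

set_option autoImplicit false

namespace Pool.Agent.LSPO

open Finset

section

variable {G : ℝ → ℝ} {U c Y Z : ℝ} {Q Dl : ℕ} {C : ℕ → ℝ}

theorem rho_nonneg (d n : ℕ) (g : ℤ) : 0 ≤ rho d n g := by
  unfold rho
  split_ifs <;> positivity

theorem Par.sumrho (h : Par G U c Y Z Q Dl C) (n : ℕ) {g : ℤ} (hg : g ≠ 0) :
    ∑ d ∈ Finset.Icc 1 Dl, rho d n g ≤ tau g.natAbs * Y ^ 2 := by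
  have hg' : g.natAbs ≠ 0 := Int.natAbs_ne_zero.2 hg
  have h1 : ∑ d ∈ Finset.Icc 1 Dl, rho d n g ≤ ∑ d ∈ Finset.Icc 1 Dl,
      (fun d k => 1 / (Nat.totient (d / k) : ℝ)) d (Nat.gcd d g.natAbs) := by
    refine Finset.sum_le_sum fun d _ => ?_
    unfold rho
    split_ifs
    · exact le_rfl
    · positivity
  refine h1.trans ?_
  rw [gcd_reindex hg' Dl (fun d k => 1 / (Nat.totient (d / k) : ℝ))]
  unfold tau
  rw [← nsmul_eq_mul, ← Finset.sum_const]
  refine Finset.sum_le_sum fun k hk => ?_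
  have hk0 : 0 < k := Nat.pos_of_mem_divisors hk
  refine le_trans ?_ h.sumphi
  have h2 : ∀ r ∈ (Finset.Icc 1 (Dl / k)).filter (fun r => Nat.Coprime r (g.natAbs / k)),
      1 / (Nat.totient (k * r / k) : ℝ) = 1 / (Nat.totient r : ℝ) := by
    intro r _
    rw [Nat.mul_div_cancel_left r hk0]
  rw [Finset.sum_congr rfl h2]
  refine Finset.sum_le_sum_of_subset_of_nonneg ?_ (fun _ _ _ => by positivity)
  intro r hr
  rw [Finset.mem_filter, Finset.mem_Icc] at hr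
  rw [Finset.mem_Icc]
  exact ⟨hr.1.1, hr.1.2.trans (Nat.div_le_self _ _)⟩

theorem Par.partB (h : Par G U c Y Z Q Dl C) (S : Finset ℤ) (hS : ∀ g ∈ S, g ≠ 0) :
    |b1 C G Q S Dl (omc Y) Z - 4 * Real.pi * ∑ n ∈ Finset.Icc 1 Q, C n * ∑ g ∈ S,
      tau g.natAbs * ∑ d ∈ Finset.Icc 1 Dl, rho d n g * Fz G Y Z (jx Y n) g d| ≤
      1 / (4 * Y) := by
  have hY0 := h.Y0
  have hY2 := h.Y2
  have hom := h.omc0
  have hog := h.omg0
  have hZ0 := h.Z0
  set S' := S.filter (fun g : ℤ => |(g : ℝ)| ≤ Gm U Y) with hS'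
  set D : ℕ → ℤ → ℕ → ℝ := fun n g d => KK G (omc Y) ((g : ℝ) * Z / n) *
    hyp (Real.log d - Real.log |(n : ℝ) - g * Z| / 2) - Fz G Y Z (jx Y n) g d with hD
  have e1 : b1 C G Q S Dl (omc Y) Z - 4 * Real.pi * ∑ n ∈ Finset.Icc 1 Q, C n * ∑ g ∈ S,
      tau g.natAbs * ∑ d ∈ Finset.Icc 1 Dl, rho d n g * Fz G Y Z (jx Y n) g d =
      4 * Real.pi * ∑ n ∈ Finset.Icc 1 Q, C n * ∑ g ∈ S, tau g.natAbs *
        ∑ d ∈ Finset.Icc 1 Dl, rho d n g * D n g d := by
    unfold b1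
    rw [← mul_sub, ← Finset.sum_sub_distrib]
    congr 1
    refine Finset.sum_congr rfl fun n _ => ?_
    rw [← mul_sub, ← Finset.sum_sub_distrib]
    congr 1
    refine Finset.sum_congr rfl fun g _ => ?_
    rw [← mul_sub, Finset.mul_sum, ← Finset.sum_sub_distrib]
    congr 1
    refine Finset.sum_congr rfl fun d _ => ?_
    simp only [hD]
    ring
  rw [e1]
  have hZZ : |Real.log (Z / Z)| ≤ omg Y := by
    rw [div_self hZ0.ne', Real.log_one, abs_zero]
    exact hog.le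
  have e2 : ∀ n ∈ Finset.Icc 1 Q, |C n * ∑ g ∈ S, tau g.natAbs *
        ∑ d ∈ Finset.Icc 1 Dl, rho d n g * D n g d| ≤
      |C n| * ((Y ^ 20 / 100) * (Y ^ 2 * (2 * Y ^ 99 * omg Y))) := by
    intro n hn
    rw [Finset.mem_Icc] at hn
    have e3 : ∑ g ∈ S, tau g.natAbs * ∑ d ∈ Finset.Icc 1 Dl, rho d n g * D n g d =
        ∑ g ∈ S', tau g.natAbs * ∑ d ∈ Finset.Icc 1 Dl, rho d n g * D n g d := by
      rw [hS']
      symm
      refine Finset.sum_subset (Finset.filter_subset _ _) fun g hg hg' => ?_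
      rw [Finset.mem_filter, not_and] at hg'
      have hbig := hg' hg
      push Not at hbig
      have f1 := h.zero_G (t := Z) (by linarith) hn.1 hn.2 hbig
      rw [Finset.sum_eq_zero, mul_zero]
      intro d _
      simp only [hD]
      rw [h.zero_F hn.1 hn.2 hbig d]
      unfold KK
      rw [f1]
      simp
    rw [e3, abs_mul]
    refine mul_le_mul_of_nonneg_left ?_ (abs_nonneg _)
    refine (Finset.abs_sum_le_sum_abs _ _).trans ?_
    have e4 : ∀ g ∈ S', |tau g.natAbs * ∑ d ∈ Finset.Icc 1 Dl, rho d n g * D n g d| ≤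
        (tau g.natAbs * tau g.natAbs) * (Y ^ 2 * (2 * Y ^ 99 * omg Y)) := by
      intro g hg
      rw [hS', Finset.mem_filter] at hg
      rw [abs_mul, abs_of_nonneg (tau_nonneg _)]
      have e5 : |∑ d ∈ Finset.Icc 1 Dl, rho d n g * D n g d| ≤
          (∑ d ∈ Finset.Icc 1 Dl, rho d n g) * (2 * Y ^ 99 * omg Y) := by
        rw [Finset.sum_mul]
        refine (Finset.abs_sum_le_sum_abs _ _).trans (Finset.sum_le_sum fun d _ => ?_)
        rw [abs_mul, abs_of_nonneg (rho_nonneg d n g)]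
        exact mul_le_mul_of_nonneg_left (h.freeze hZZ hZ0 hn.1 hn.2 (hS g hg.1) d)
          (rho_nonneg d n g)
      calc tau g.natAbs * |∑ d ∈ Finset.Icc 1 Dl, rho d n g * D n g d|
          ≤ tau g.natAbs * ((tau g.natAbs * Y ^ 2) * (2 * Y ^ 99 * omg Y)) := by
            refine mul_le_mul_of_nonneg_left (e5.trans ?_) (tau_nonneg _)
            exact mul_le_mul_of_nonneg_right (h.sumrho n (hS g hg.1)) (by positivity)
        _ = _ := by ring
    refine (Finset.sum_le_sum e4).trans ?_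
    rw [← Finset.sum_mul]
    exact mul_le_mul_of_nonneg_right (h.sumg2 S hS) (by positivity)
  have e5 : |∑ n ∈ Finset.Icc 1 Q, C n * ∑ g ∈ S, tau g.natAbs *
        ∑ d ∈ Finset.Icc 1 Dl, rho d n g * D n g d| ≤
      (Y ^ 2 / 100) * ((Y ^ 20 / 100) * (Y ^ 2 * (2 * Y ^ 99 * omg Y))) := by
    refine (Finset.abs_sum_le_sum_abs _ _).trans ((Finset.sum_le_sum e2).trans ?_)
    rw [← Finset.sum_mul]
    exact mul_le_mul_of_nonneg_right h.sumC (by positivity)
  rw [abs_mul, abs_of_pos (by positivity : 0 < 4 * Real.pi)]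
  have hpi : Real.pi ≤ 4 := Real.pi_le_four
  have e8 : omg Y = (Y ^ 125)⁻¹ := rfl
  rw [e8] at e5
  have g1 : (Y ^ 2 / 100) * ((Y ^ 20 / 100) * (Y ^ 2 * (2 * Y ^ 99 * (Y ^ 125)⁻¹))) ≤
      1 / (1000 * Y) := by
    have e1 : (Y ^ 2 / 100) * ((Y ^ 20 / 100) * (Y ^ 2 * (2 * Y ^ 99 * (Y ^ 125)⁻¹))) =
        2 / 10000 * (1 / Y ^ 2) := by field_simp; norm_num
    rw [e1]
    have e2 : 1 / Y ^ 2 ≤ 1 / Y := by
      refine one_div_le_one_div_of_le hY0 ?_
      calc Y = Y ^ 1 := (pow_one Y).symm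
        _ ≤ Y ^ 2 := h.pw (by norm_num)
    have e3 : 0 < 1 / Y := by positivity
    have e4 : 1 / (1000 * Y) = 1 / 1000 * (1 / Y) := by field_simp
    rw [e4]
    linarith
  have hY4 : 1 / (4 * Y) = 1 / 4 * (1 / Y) := by field_simp
  have hY1000 : 1 / (1000 * Y) = 1 / 1000 * (1 / Y) := by field_simp
  have e3 : 0 < 1 / Y := by positivity
  calc 4 * Real.pi * |∑ n ∈ Finset.Icc 1 Q, C n * ∑ g ∈ S, tau g.natAbs *
        ∑ d ∈ Finset.Icc 1 Dl, rho d n g * D n g d|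
      ≤ 4 * 4 * (1 / (1000 * Y)) := by
        gcongr
        exact e5.trans g1
    _ ≤ 1 / (4 * Y) := by
        rw [hY4, hY1000]
        linarith

end

end Pool.Agent.LSPO
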