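import Pool.Agent.Lib_helper31.LSP.PtB
import Pool.Agent.Lib_helper31.LSP.Avg

/-! Part O: the large conductors -/

set_option autoImplicit false

namespace Pool.Agent.LSPO

open Finset Complex DirichletCharacter Pool.Agent.Var73 Pool.Agent.Var35

section

variable {G : ℝ → ℝ} {U c Y Z : ℝ} {Q Dl : ℕ} {C : ℕ → ℝ}

theorem Par.cardJ (h : Par G U c Y Z Q Dl C) :
    (#((Finset.Icc 1 Q).image (jx Y)) : ℝ) ≤ Y ^ 126 := by
  have hY0 := h.Y0
  have hY2 := h.Y2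
  have hlQ := h.logQ
  have hlQ0 : 0 ≤ Real.log Q := Real.log_nonneg (by exact_mod_cast h.hQ1)
  have h1 : (Finset.Icc 1 Q).image (jx Y) ⊆ Finset.range (⌊Real.log Q * Y ^ 125⌋₊ + 1) := by
    intro j hj
    rw [Finset.mem_image] at hj
    obtain ⟨n, hn, rfl⟩ := hj
    rw [Finset.mem_Icc] at hn
    rw [Finset.mem_range]
    unfold jx
    have hn0 : (0 : ℝ) < n := by exact_mod_cast hn.1
    have : Real.log n ≤ Real.log Q := Real.log_le_log hn0 (by exact_mod_cast hn.2)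
    have h2 : Real.log n * Y ^ 125 ≤ Real.log Q * Y ^ 125 := by gcongr
    exact Nat.lt_succ_of_le (Nat.floor_le_floor h2)
  have h2 := Finset.card_le_card h1
  rw [Finset.card_range] at h2
  have h3 : (#((Finset.Icc 1 Q).image (jx Y)) : ℝ) ≤ (⌊Real.log Q * Y ^ 125⌋₊ : ℝ) + 1 := by
    exact_mod_cast h2
  have h4 := Nat.floor_le (show 0 ≤ Real.log Q * Y ^ 125 by positivity)
  have h5 : Real.log Q * Y ^ 125 ≤ (Y / 500) * Y ^ 125 := by gcongr
  have h6 : (1 : ℝ) ≤ Y ^ 126 / 500 := by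
    have : Y ^ 1 ≤ Y ^ 126 := h.pw (by norm_num)
    rw [pow_one] at this
    linarith
  have h7 : (Y / 500) * Y ^ 125 = Y ^ 126 / 500 := by ring
  have h8 : 0 < Y ^ 126 := by positivity
  linarith

/-- the coefficients in the block `j` -/
theorem Par.sum_ac (h : Par G U c Y Z Q Dl C) {k j : ℕ} (hk : 0 < k)
    (hj : Z / U ≤ nu Y j) :
    ∑ m ∈ Finset.Ioc 0 Q, ‖ac C Q (jx Y) k j m‖ ^ 2 ≤ Y ^ 4 / Z := by
  have hY0 := h.Y0
  have hY2 := h.Y2
  have hZ0 := h.Z0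
  have hU := h.ok.one_le
  have h1 : ∀ m ∈ Finset.Ioc 0 Q, ‖ac C Q (jx Y) k j m‖ ^ 2 ≤ (Y ^ 3 / Z) * (1 / (m : ℝ)) := by
    intro m hm
    rw [Finset.mem_Ioc] at hm
    have hm0 : (0 : ℝ) < m := by exact_mod_cast hm.1
    unfold ac
    split_ifs with hc
    · have hkm : 1 ≤ k * m := Nat.mul_pos hk hm.1
      have hkm0 : (0 : ℝ) < ((k * m : ℕ) : ℝ) := by exact_mod_cast hkm
      have e1 := h.nu_le hkm
      rw [hc.2] at e1
      have e2 := h.hC (k * m) hkm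
      rw [Complex.norm_real, Real.norm_eq_abs]
      have e3 : |C (k * m)| ^ 2 ≤ (Y / ((k * m : ℕ) : ℝ)) ^ 2 := by gcongr
      refine e3.trans ?_
      rw [div_pow, div_mul_div_comm, mul_one]
      rw [div_le_div_iff₀ (by positivity) (by positivity)]
      have e4 : Z ≤ U * ((k * m : ℕ) : ℝ) := by
        rw [div_le_iff₀ (by linarith)] at hj
        calc Z ≤ nu Y j * U := hj
          _ ≤ ((k * m : ℕ) : ℝ) * U := by gcongr
          _ = U * ((k * m : ℕ) : ℝ) := mul_comm _ _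
      have e5 : (m : ℝ) ≤ ((k * m : ℕ) : ℝ) := by
        exact_mod_cast Nat.le_mul_of_pos_left m hk
      have e6 : U ≤ Y := by linarith [h.U1]
      calc Y ^ 2 * (Z * m) ≤ Y ^ 2 * ((Y * ((k * m : ℕ) : ℝ)) * ((k * m : ℕ) : ℝ)) := by
            gcongr
            exact e4.trans (by gcongr)
        _ = Y ^ 3 * ((k * m : ℕ) : ℝ) ^ 2 := by ring
    · rw [norm_zero, zero_pow two_ne_zero]
      positivity
  refine (Finset.sum_le_sum h1).trans ?_
  rw [← Finset.mul_sum]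
  have h2 : ∑ m ∈ Finset.Ioc 0 Q, 1 / (m : ℝ) ≤ Y := by
    have h3 := sum_inv_le Q
    have h4 : Finset.Ioc 0 Q = Finset.Icc 1 Q := by
      ext m
      simp only [Finset.mem_Ioc, Finset.mem_Icc]
      omega
    rw [h4]
    have h5 := h.logQ
    linarith
  calc (Y ^ 3 / Z) * ∑ m ∈ Finset.Ioc 0 Q, 1 / (m : ℝ) ≤ (Y ^ 3 / Z) * Y := by gcongr
    _ = Y ^ 4 / Z := by ring

open scoped Classical in
/-- one block -/
theorem Par.block (h : Par G U c Y Z Q Dl C) {R : ℕ} (hR : Y ^ 400 ≤ R) (P : Finset ℕ)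
    (hP : ∀ p ∈ P, p.Prime ∧ Dl < p ∧ |Real.log ((p : ℝ) / Z)| ≤ omg Y) (b : ℕ → ℝ)
    (hb : ∀ p ∈ P, 0 ≤ b p ∧ b p ≤ Y ^ 275 / Z) (hb1 : ∑ p ∈ P, b p = 1)
    (hv : ∀ d, 1 < d → d ≤ R → ∀ ψ ∈ Pr d, ∑ p ∈ P, (b p : ℂ) * ψ (p : ZMod d) = 0)
    {g : ℤ} {k j : ℕ} (hk : 0 < k) (hg : g ≠ 0) (hj : j ∈ (Finset.Icc 1 Q).image (jx Y)) :
    ∑ r ∈ Finset.Icc 1 (Dl / k), 1 / (Nat.totient r : ℝ) *
      ∑ χ ∈ (univ : Finset (DirichletCharacter ℂ r)).filter (fun χ => χ ≠ 1),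
        ‖Bx P b χ‖ * (|Fz G Y Z j g (k * r)| *
          ‖∑ m ∈ Finset.Ioc 0 Q, ac C Q (jx Y) k j m * χ (m : ZMod r)‖) ≤ Y ^ 164 / R := by
  have hY0 := h.Y0
  have hY2 := h.Y2
  have hZ0 := h.Z0
  have hU := h.ok.one_le
  have hY400 : (0 : ℝ) < Y ^ 400 := by positivity
  have hR0 : (0 : ℝ) < R := by linarith
  have hR1 : 1 ≤ R := by
    have : (0 : ℝ) < R := hR0
    exact_mod_cast this
  have hrhs : 0 ≤ Y ^ 164 / R := by positivity
  have hDl1 : 1 ≤ Dl := by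
    by_contra h0
    have : Dl = 0 := by omega
    have h1 := h.hD
    rw [this] at h1
    have h2 : (1 : ℝ) ≤ Q := by exact_mod_cast h.hQ1
    norm_num at h1
    nlinarith
  -- small blocks: the kernel vanishes
  by_cases hjs : nu Y j < Z / U
  · refine le_trans (le_of_eq ?_) hrhs
    refine Finset.sum_eq_zero fun r _ => ?_
    rw [Finset.sum_eq_zero, mul_zero]
    intro χ _
    have h0 : Fz G Y Z j g (k * r) = 0 := by
      have hν0 := nu_pos Y j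
      have hgR : (1 : ℝ) ≤ |(g : ℝ)| := by
        have : 1 ≤ |g| := Int.one_le_abs hg
        exact_mod_cast this
      have h1 : G (g * Z / nu Y j) = 0 := by
        apply h.ok.supp
        rw [abs_div, abs_mul, abs_of_pos hZ0, abs_of_pos hν0, lt_div_iff₀ hν0]
        rw [lt_div_iff₀ (by linarith)] at hjs
        calc U * nu Y j = nu Y j * U := mul_comm _ _
          _ < Z := hjs
          _ ≤ |(g : ℝ)| * Z := le_mul_of_one_le_left hZ0.le hgR
      unfold Fz KK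
      rw [h1]
      simp
    rw [h0]
    simp
  push Not at hjs
  rw [Finset.mem_image] at hj
  obtain ⟨n, hn, hnj⟩ := hj
  rw [Finset.mem_Icc] at hn
  set H1 : ℕ := ⌊2 * Z⌋₊ with hH1
  set b' : ℕ → ℂ := fun n => if n ∈ P then (b n : ℂ) else 0 with hb'
  have hPsub : P ⊆ Finset.Ioc 0 H1 := by
    intro p hp
    have h1 := hP p hp
    have hp0 := h1.1.pos
    have h2 := (h.win (t := p) (by exact_mod_cast hp0) h1.2.2).2
    rw [Finset.mem_Ioc]
    exact ⟨hp0, Nat.le_floor h2⟩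
  have hBx : ∀ (r : ℕ) (χ : DirichletCharacter ℂ r),
      ∑ n ∈ Finset.Ioc 0 H1, b' n * χ (n : ZMod r) = Bx P b χ := by
    intro r χ
    unfold Bx
    symm
    rw [← Finset.sum_subset hPsub]
    · refine Finset.sum_congr rfl fun p hp => ?_
      simp only [hb']
      rw [if_pos hp]
    · intro n _ hn
      simp only [hb']
      rw [if_neg hn, zero_mul]
  have hls := ls_bound Dl R H1 Q hDl1 hR1 (ac C Q (jx Y) k j) b' (by
      intro n hn d hd
      simp only [hb'] at hn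
      have hnP : n ∈ P := by
        by_contra h0
        rw [if_neg h0] at hn
        exact hn rfl
      have h1 := hP n hnP
      rw [Finset.mem_Icc] at hd
      exact (Nat.Prime.coprime_iff_not_dvd h1.1).2
        (Nat.not_dvd_of_pos_of_lt (by omega) (lt_of_le_of_lt hd.2 h1.2.1))) (by
      intro d hd1 hdR ψ hψ
      rw [hBx d ψ]
      exact hv d hd1 hdR ψ hψ)
  -- compare
  have hcmp : ∑ r ∈ Finset.Icc 1 (Dl / k), 1 / (Nat.totient r : ℝ) *
      ∑ χ ∈ (univ : Finset (DirichletCharacter ℂ r)).filter (fun χ => χ ≠ 1),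
        ‖Bx P b χ‖ * (|Fz G Y Z j g (k * r)| *
          ‖∑ m ∈ Finset.Ioc 0 Q, ac C Q (jx Y) k j m * χ (m : ZMod r)‖) ≤
      Y * ∑ r ∈ Finset.Icc 1 Dl, (1 / (Nat.totient r : ℝ)) *
        ∑ χ ∈ (univ : Finset (DirichletCharacter ℂ r)).filter (fun χ => χ ≠ 1),
          ‖∑ n ∈ Finset.Ioc 0 H1, b' n * χ (n : ZMod r)‖ *
            ‖∑ n ∈ Finset.Ioc 0 Q, ac C Q (jx Y) k j n * χ (n : ZMod r)‖ := by
    rw [Finset.mul_sum]
    refine (Finset.sum_le_sum (g := fun r => Y * ((1 / (Nat.totient r : ℝ)) *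
        ∑ χ ∈ (univ : Finset (DirichletCharacter ℂ r)).filter (fun χ => χ ≠ 1),
          ‖∑ n ∈ Finset.Ioc 0 H1, b' n * χ (n : ZMod r)‖ *
            ‖∑ n ∈ Finset.Ioc 0 Q, ac C Q (jx Y) k j n * χ (n : ZMod r)‖)) ?_).trans
      (Finset.sum_le_sum_of_subset_of_nonneg ?_ ?_)
    · intro r _
      rw [mul_left_comm]
      refine mul_le_mul_of_nonneg_left ?_ (by positivity)
      rw [Finset.mul_sum]
      refine Finset.sum_le_sum fun χ _ => ?_
      rw [hBx r χ]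
      have hF : |Fz G Y Z j g (k * r)| ≤ Y := by
        rw [← hnj]
        exact h.Fz_le hn.1 hn.2 hg _
      calc ‖Bx P b χ‖ * (|Fz G Y Z j g (k * r)| *
            ‖∑ m ∈ Finset.Ioc 0 Q, ac C Q (jx Y) k j m * χ (m : ZMod r)‖)
          ≤ ‖Bx P b χ‖ * (Y * ‖∑ m ∈ Finset.Ioc 0 Q, ac C Q (jx Y) k j m * χ (m : ZMod r)‖) := by
            gcongr
        _ = _ := by ring
    · intro r hr
      rw [Finset.mem_Icc] at hr ⊢
      exact ⟨hr.1, hr.2.trans (Nat.div_le_self _ _)⟩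
    · intro r _ _
      positivity
  refine hcmp.trans ?_
  -- sizes
  have hH1r : (H1 : ℝ) ≤ 2 * Z := Nat.floor_le (by positivity)
  have hQr := h.hQ
  have hD2 := h.hD2
  have hb2 : ∑ n ∈ Finset.Ioc 0 H1, ‖b' n‖ ^ 2 ≤ Y ^ 275 / Z := by
    have e1 : ∑ n ∈ Finset.Ioc 0 H1, ‖b' n‖ ^ 2 = ∑ p ∈ P, b p ^ 2 := by
      symm
      rw [← Finset.sum_subset hPsub]
      · refine Finset.sum_congr rfl fun p hp => ?_
        simp only [hb']
        rw [if_pos hp, Complex.norm_real, Real.norm_eq_abs, sq_abs]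
      · intro n _ hn
        simp only [hb']
        rw [if_neg hn]
        simp
    rw [e1]
    calc ∑ p ∈ P, b p ^ 2 ≤ ∑ p ∈ P, (Y ^ 275 / Z) * b p := by
          refine Finset.sum_le_sum fun p hp => ?_
          have := hb p hp
          rw [sq]
          exact mul_le_mul_of_nonneg_right this.2 this.1
      _ = Y ^ 275 / Z := by rw [← Finset.mul_sum, hb1, mul_one]
  have ha2 := h.sum_ac hk hjs
  have hsb : Real.sqrt ((H1 + (Dl:ℝ) ^ 2) * ∑ n ∈ Finset.Ioc 0 H1, ‖b' n‖ ^ 2) ≤ Y ^ 147 := by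
    rw [← Real.sqrt_sq (show 0 ≤ Y ^ 147 by positivity)]
    refine Real.sqrt_le_sqrt ?_
    calc (H1 + (Dl:ℝ) ^ 2) * ∑ n ∈ Finset.Ioc 0 H1, ‖b' n‖ ^ 2
        ≤ (2 * Z + Z * Y ^ 18) * (Y ^ 275 / Z) := by gcongr
      _ = 2 * Y ^ 275 + Y ^ 293 := by field_simp
      _ ≤ Y ^ 293 + Y ^ 293 := by
          have : 2 * Y ^ 275 ≤ Y * Y ^ 275 := by gcongr; linarith
          have e2 : Y * Y ^ 275 = Y ^ 276 := by ring
          have e3 : Y ^ 276 ≤ Y ^ 293 := h.pw (by norm_num)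
          linarith
      _ = 2 * Y ^ 293 := by ring
      _ ≤ Y * Y ^ 293 := by gcongr; linarith
      _ = (Y ^ 147) ^ 2 := by ring
  have hsa : Real.sqrt ((Q + (Dl:ℝ) ^ 2) *
      ∑ n ∈ Finset.Ioc 0 Q, ‖ac C Q (jx Y) k j n‖ ^ 2) ≤ Y ^ 12 := by
    rw [← Real.sqrt_sq (show 0 ≤ Y ^ 12 by positivity)]
    refine Real.sqrt_le_sqrt ?_
    calc (Q + (Dl:ℝ) ^ 2) * ∑ n ∈ Finset.Ioc 0 Q, ‖ac C Q (jx Y) k j n‖ ^ 2
        ≤ (Z * Y ^ 17 + Z * Y ^ 18) * (Y ^ 4 / Z) := by gcongr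
      _ = Y ^ 21 + Y ^ 22 := by field_simp
      _ ≤ Y ^ 22 + Y ^ 22 := by
          have : Y ^ 21 ≤ Y ^ 22 := h.pw (by norm_num)
          linarith
      _ = 2 * Y ^ 22 := by ring
      _ ≤ Y ^ 2 * Y ^ 22 := by
          gcongr
          nlinarith
      _ = (Y ^ 12) ^ 2 := by ring
  have hphi := h.sumphi
  calc Y * ∑ r ∈ Finset.Icc 1 Dl, (1 / (Nat.totient r : ℝ)) *
        ∑ χ ∈ (univ : Finset (DirichletCharacter ℂ r)).filter (fun χ => χ ≠ 1),
          ‖∑ n ∈ Finset.Ioc 0 H1, b' n * χ (n : ZMod r)‖ *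
            ‖∑ n ∈ Finset.Ioc 0 Q, ac C Q (jx Y) k j n * χ (n : ZMod r)‖
      ≤ Y * (22 / R * (Y ^ 2) * (Y ^ 147 * Y ^ 12)) := by
        refine mul_le_mul_of_nonneg_left (hls.trans ?_) hY0.le
        gcongr
    _ = 22 * Y ^ 162 / R := by ring
    _ ≤ (Y ^ 2) * Y ^ 162 / R := by
        gcongr
        nlinarith
    _ = Y ^ 164 / R := by ring

end

end Pool.Agent.LSPO
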