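import Pool.Agent.Lib_helper31.LSP.Par
import Pool.Agent.Lib_helper31.LSP.Exp

/-! Part O: the elementary sums -/

set_option autoImplicit false

namespace Pool.Agent.LSPO

open Finset Pool.Agent.Var73 Pool.Agent.Var35

section

variable {G : ℝ → ℝ} {U c Y Z : ℝ} {Q Dl : ℕ} {C : ℕ → ℝ}

/-- the range of `g` -/
noncomputable def Gm (U Y : ℝ) : ℝ := 2 * U * Y ^ 17

theorem tau_nonneg (n : ℕ) : 0 ≤ tau n := by unfold tau; positivity

theorem Par.Gm_le (h : Par G U c Y Z Q Dl C) : Gm U Y ≤ Y ^ 18 / 500 := by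
  have hY := h.Y0
  unfold Gm
  calc 2 * U * Y ^ 17 ≤ 2 * (Y / 1000) * Y ^ 17 := by
        have := h.U1
        gcongr
    _ = Y ^ 18 / 500 := by ring

theorem Par.logQ (h : Par G U c Y Z Q Dl C) : Real.log Q ≤ Y / 500 := by
  have hQ0 : (0 : ℝ) < Q := by exact_mod_cast h.hQ1
  have hY := h.Y0
  have := Real.log_le_log hQ0 h.hQ
  rw [Real.log_mul h.Z0.ne' (by positivity), Real.log_pow] at this
  have f5 := h.lY
  have f6 := h.lY0
  have f7 := h.lZ
  push_cast at this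
  linarith

theorem Par.sumC (h : Par G U c Y Z Q Dl C) : ∑ n ∈ Finset.Icc 1 Q, |C n| ≤ Y ^ 2 / 100 := by
  have hY := h.Y2
  have h1 : ∑ n ∈ Finset.Icc 1 Q, |C n| ≤ ∑ n ∈ Finset.Icc 1 Q, Y * (1 / (n : ℝ)) := by
    refine Finset.sum_le_sum fun n hn => ?_
    rw [mul_one_div]
    exact h.hC n (Finset.mem_Icc.1 hn).1
  refine h1.trans ?_
  rw [← Finset.mul_sum]
  have h2 := sum_inv_le Q
  have h3 := h.logQ
  calc Y * ∑ n ∈ Finset.Icc 1 Q, 1 / (n : ℝ) ≤ Y * (Y / 100) := by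
        have h0 := h.Y0
        gcongr
        linarith
    _ = Y ^ 2 / 100 := by ring

theorem Par.tau_le (h : Par G U c Y Z Q Dl C) {g : ℤ} (hg : g ≠ 0) (hg' : |(g : ℝ)| ≤ Gm U Y) :
    tau g.natAbs ≤ Y := by
  have hY := h.Y1
  refine h.ht _ (Int.natAbs_pos.2 hg) ?_
  have e1 : ((g.natAbs : ℕ) : ℝ) = |(g : ℝ)| := by
    rw [← Int.cast_natCast, Int.natCast_natAbs, Int.cast_abs]
  rw [e1]
  have e2 : Y ^ 18 ≤ Z := h.pwZ (by norm_num)
  have e3 : Z ≤ Z ^ 2 := by nlinarith [h.h1]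
  have e4 : (0 : ℝ) < Y ^ 18 := by have := h.Y0; positivity
  linarith [h.Gm_le]

theorem card_int_le (S : Finset ℤ) (B : ℝ) (hB : 0 ≤ B) (hS : ∀ g ∈ S, |(g : ℝ)| ≤ B) :
    (#S : ℝ) ≤ 2 * B + 1 := by
  have h1 : S ⊆ Finset.Icc (-⌊B⌋) ⌊B⌋ := by
    intro g hg
    have := hS g hg
    rw [abs_le] at this
    rw [Finset.mem_Icc]
    constructor
    · have h2 : -g ≤ ⌊B⌋ := Int.le_floor.2 (by push_cast; linarith [this.1])
      omega
    · exact Int.le_floor.2 this.2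
  have h2 := Finset.card_le_card h1
  rw [Int.card_Icc] at h2
  have h3 : (0 : ℤ) ≤ ⌊B⌋ := Int.floor_nonneg.2 hB
  have h4 : ((#S : ℕ) : ℤ) ≤ 2 * ⌊B⌋ + 1 := by omega
  have h5 : ((#S : ℕ) : ℝ) ≤ 2 * (⌊B⌋ : ℝ) + 1 := by exact_mod_cast h4
  linarith [Int.floor_le B]

theorem Par.sumg (h : Par G U c Y Z Q Dl C) (S : Finset ℤ) (hS : ∀ g ∈ S, g ≠ 0) :
    ∑ g ∈ S.filter (fun g : ℤ => |(g : ℝ)| ≤ Gm U Y), tau g.natAbs ≤ Y ^ 19 / 100 := by
  have hY := h.Y2
  have hY0 := h.Y0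
  have hG0 : 0 ≤ Gm U Y := by
    have := h.ok.one_le
    unfold Gm; positivity
  calc ∑ g ∈ S.filter (fun g : ℤ => |(g : ℝ)| ≤ Gm U Y), tau g.natAbs
      ≤ ∑ _g ∈ S.filter (fun g : ℤ => |(g : ℝ)| ≤ Gm U Y), Y := by
        refine Finset.sum_le_sum fun g hg => ?_
        rw [Finset.mem_filter] at hg
        exact h.tau_le (hS g hg.1) hg.2
    _ = #(S.filter (fun g : ℤ => |(g : ℝ)| ≤ Gm U Y)) * Y := by
        rw [Finset.sum_const, nsmul_eq_mul]
    _ ≤ (2 * Gm U Y + 1) * Y := by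
        gcongr
        exact card_int_le _ _ hG0 (fun g hg => (Finset.mem_filter.1 hg).2)
    _ ≤ (Y ^ 18 / 250 + Y ^ 18 / 1000) * Y := by
        gcongr
        · linarith [h.Gm_le]
        · have e1 : Y ^ 1 ≤ Y ^ 18 := h.pw (by norm_num)
          rw [pow_one] at e1
          linarith
    _ ≤ Y ^ 19 / 100 := by
        have e1 : 0 < Y ^ 19 := by positivity
        have e2 : (Y ^ 18 / 250 + Y ^ 18 / 1000) * Y = Y ^ 19 / 200 := by ring
        rw [e2]; linarith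

theorem Par.sumg2 (h : Par G U c Y Z Q Dl C) (S : Finset ℤ) (hS : ∀ g ∈ S, g ≠ 0) :
    ∑ g ∈ S.filter (fun g : ℤ => |(g : ℝ)| ≤ Gm U Y), tau g.natAbs * tau g.natAbs ≤
      Y ^ 20 / 100 := by
  have hY0 := h.Y0
  calc ∑ g ∈ S.filter (fun g : ℤ => |(g : ℝ)| ≤ Gm U Y), tau g.natAbs * tau g.natAbs
      ≤ ∑ g ∈ S.filter (fun g : ℤ => |(g : ℝ)| ≤ Gm U Y), tau g.natAbs * Y := by
        refine Finset.sum_le_sum fun g hg => ?_
        rw [Finset.mem_filter] at hg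
        exact mul_le_mul_of_nonneg_left (h.tau_le (hS g hg.1) hg.2) (tau_nonneg _)
    _ = (∑ g ∈ S.filter (fun g : ℤ => |(g : ℝ)| ≤ Gm U Y), tau g.natAbs) * Y := by
        rw [Finset.sum_mul]
    _ ≤ Y ^ 19 / 100 * Y := by gcongr; exact h.sumg S hS
    _ = Y ^ 20 / 100 := by ring

/-- the sum over the moduli -/
theorem Par.sumphi (h : Par G U c Y Z Q Dl C) :
    ∑ m ∈ Finset.Icc 1 Dl, 1 / (Nat.totient m : ℝ) ≤ Y ^ 2 := by
  have hY := h.Y2
  have hDl : 1 ≤ Dl := by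
    by_contra h0
    have : Dl = 0 := by omega
    have h1 := h.hD
    rw [this] at h1
    have h2 : (1 : ℝ) ≤ Q := by exact_mod_cast h.hQ1
    have h3 := h.ok.one_le
    norm_num at h1
    nlinarith
  have hD0 : (0 : ℝ) < Dl := by exact_mod_cast hDl
  have hlD : 0 ≤ Real.log Dl := Real.log_nonneg (by exact_mod_cast hDl)
  have hl : Real.log Dl ≤ Y / 1000 := by
    have := Real.log_le_log (by positivity) h.hD2
    rw [Real.log_pow, Real.log_mul h.Z0.ne' (by have := h.Y0; positivity), Real.log_pow] at this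
    have f5 := h.lY
    have f6 := h.lY0
    have f7 := h.lZ
    push_cast at this
    linarith
  set Lg := 2 * Real.log Dl + 1 with hLg
  have h1 : ∀ m ∈ Finset.Icc 1 Dl, 1 / (Nat.totient m : ℝ) ≤ Lg * (1 / (m : ℝ)) := by
    intro m hm
    rw [Finset.mem_Icc] at hm
    rw [mul_one_div]
    refine inv_totient_le m hm.1 Lg ?_
    have : Real.log m ≤ Real.log Dl :=
      Real.log_le_log (by exact_mod_cast hm.1) (by exact_mod_cast hm.2)
    linarith
  refine (Finset.sum_le_sum h1).trans ?_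
  rw [← Finset.mul_sum]
  have h2 := sum_inv_le Dl
  calc Lg * ∑ m ∈ Finset.Icc 1 Dl, 1 / (m : ℝ) ≤ Y * Y := by
        gcongr
        · linarith
        · linarith
    _ = Y ^ 2 := by ring

/-- the singular part -/
theorem Par.sing (h : Par G U c Y Z Q Dl C) {t : ℝ} (ht : Z / 2 ≤ t) {g : ℤ} (hg : g ≠ 0) :
    ∑ n ∈ (Finset.Icc 1 Q).filter (fun n : ℕ => |1 - (g : ℝ) * t / n| < 2 * omc Y), |C n| ≤
      13 * Y * omc Y := by
  have hY0 := h.Y0
  have hY2 := h.Y2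
  have hZ0 := h.Z0
  have ht0 : 0 < t := by linarith
  have hom := h.omc0
  have hom1 := h.omc1
  rcases lt_or_gt_of_ne hg with hneg | hpos
  · -- negative g: empty
    rw [Finset.sum_eq_zero]
    · positivity
    · intro n hn
      exfalso
      rw [Finset.mem_filter, Finset.mem_Icc] at hn
      have hn0 : (0 : ℝ) < n := by exact_mod_cast hn.1.1
      have hgr : (g : ℝ) < 0 := by exact_mod_cast hneg
      have h1 : (g : ℝ) * t / n < 0 := div_neg_of_neg_of_pos (mul_neg_of_neg_of_pos hgr ht0) hn0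
      have h2 := hn.2
      rw [abs_lt] at h2
      linarith [h2.2]
  have hgr : (1 : ℝ) ≤ g := by exact_mod_cast hpos
  set A := (g : ℝ) * t with hA
  have hAt : t ≤ A := by rw [hA]; nlinarith
  have hA0 : 0 < A := by linarith
  have hAbig : 2 / omc Y ≤ A := by
    unfold omc
    rw [div_inv_eq_mul]
    have e1 : 4 * Y ^ 32 ≤ Z := by
      calc 4 * Y ^ 32 ≤ Y * Y ^ 32 := by gcongr; linarith
        _ = Y ^ 33 := by ring
        _ ≤ Z := h.pwZ (by norm_num)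
    linarith
  have hmem : ∀ n ∈ (Finset.Icc 1 Q).filter (fun n : ℕ => |1 - A / n| < 2 * omc Y),
      A * (1 - 2 * omc Y) ≤ n ∧ (n : ℝ) ≤ A * (1 + 4 * omc Y) := by
    intro n hn
    rw [Finset.mem_filter, Finset.mem_Icc] at hn
    have hn0 : (0 : ℝ) < n := by exact_mod_cast hn.1.1
    have h2 := hn.2
    rw [abs_lt] at h2
    have e1 : A / n * n = A := by field_simp
    constructor
    · have : A / n ≤ 1 + 2 * omc Y := by linarith [h2.1]
      have e2 : A ≤ (1 + 2 * omc Y) * n := by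
        rw [← e1]; gcongr
      have e3 : (1 - 2 * omc Y) * (1 + 2 * omc Y) ≤ 1 := by nlinarith
      calc A * (1 - 2 * omc Y) ≤ ((1 + 2 * omc Y) * n) * (1 - 2 * omc Y) := by
            gcongr
            linarith
        _ = ((1 - 2 * omc Y) * (1 + 2 * omc Y)) * n := by ring
        _ ≤ 1 * n := by gcongr
        _ = n := one_mul _
    · have e2 : 1 - 2 * omc Y < A / n := by linarith [h2.2]
      have e3 : (1 - 2 * omc Y) * n ≤ A := by
        rw [← e1]; gcongr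
      have e4 : 1 ≤ (1 - 2 * omc Y) * (1 + 4 * omc Y) := by nlinarith
      calc (n : ℝ) = 1 * n := (one_mul _).symm
        _ ≤ ((1 - 2 * omc Y) * (1 + 4 * omc Y)) * n := by gcongr
        _ = ((1 - 2 * omc Y) * n) * (1 + 4 * omc Y) := by ring
        _ ≤ A * (1 + 4 * omc Y) := by gcongr
  have hterm : ∀ n ∈ (Finset.Icc 1 Q).filter (fun n : ℕ => |1 - A / n| < 2 * omc Y),
      |C n| ≤ 2 * Y / A := by
    intro n hn
    have e1 := hmem n hn
    rw [Finset.mem_filter, Finset.mem_Icc] at hn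
    have hn0 : (0 : ℝ) < n := by exact_mod_cast hn.1.1
    refine (h.hC n hn.1.1).trans ?_
    rw [div_le_div_iff₀ hn0 hA0]
    have e2 : A / 2 ≤ n := by nlinarith [e1.1]
    nlinarith
  have hcard : (#((Finset.Icc 1 Q).filter (fun n : ℕ => |1 - A / n| < 2 * omc Y)) : ℝ) ≤
      6 * omc Y * A + 1 := by
    set T := (Finset.Icc 1 Q).filter (fun n : ℕ => |1 - A / n| < 2 * omc Y) with hT
    have h1 : T ⊆ Finset.Icc ⌈A * (1 - 2 * omc Y)⌉₊ ⌊A * (1 + 4 * omc Y)⌋₊ := by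
      intro n hn
      rw [Finset.mem_Icc]
      exact ⟨Nat.ceil_le.2 (hmem n hn).1, Nat.le_floor (hmem n hn).2⟩
    by_cases hne : T.Nonempty
    · obtain ⟨n, hn⟩ := hne
      have h2 := Finset.card_le_card h1
      rw [Nat.card_Icc] at h2
      have h3 := Finset.mem_Icc.1 (h1 hn)
      have h4 : (#T : ℝ) ≤ (⌊A * (1 + 4 * omc Y)⌋₊ : ℝ) + 1 - (⌈A * (1 - 2 * omc Y)⌉₊ : ℝ) := by
        have : #T + ⌈A * (1 - 2 * omc Y)⌉₊ ≤ ⌊A * (1 + 4 * omc Y)⌋₊ + 1 := by omega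
        have h5 : ((#T + ⌈A * (1 - 2 * omc Y)⌉₊ : ℕ) : ℝ) ≤
            ((⌊A * (1 + 4 * omc Y)⌋₊ + 1 : ℕ) : ℝ) := by exact_mod_cast this
        push_cast at h5
        linarith
      have h6 := Nat.floor_le (show 0 ≤ A * (1 + 4 * omc Y) by positivity)
      have h7 := Nat.le_ceil (A * (1 - 2 * omc Y))
      linarith
    · rw [Finset.not_nonempty_iff_eq_empty] at hne
      rw [hne, Finset.card_empty]
      push_cast
      positivity
  calc ∑ n ∈ (Finset.Icc 1 Q).filter (fun n : ℕ => |1 - A / n| < 2 * omc Y), |C n|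
      ≤ ∑ _n ∈ (Finset.Icc 1 Q).filter (fun n : ℕ => |1 - A / n| < 2 * omc Y), 2 * Y / A :=
        Finset.sum_le_sum hterm
    _ = #((Finset.Icc 1 Q).filter (fun n : ℕ => |1 - A / n| < 2 * omc Y)) * (2 * Y / A) := by
        rw [Finset.sum_const, nsmul_eq_mul]
    _ ≤ (6 * omc Y * A + 1) * (2 * Y / A) := by gcongr
    _ = 12 * Y * omc Y + 2 * Y / A := by field_simp; ring
    _ ≤ 12 * Y * omc Y + Y * omc Y := by
        have : 2 * Y / A ≤ Y * omc Y := by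
          rw [div_le_iff₀ hom] at hAbig
          rw [div_le_iff₀ hA0]
          nlinarith
        linarith
    _ = 13 * Y * omc Y := by ring

/-- for large `g` everything vanishes -/
theorem Par.zero_G (h : Par G U c Y Z Q Dl C) {t : ℝ} (ht : Z / 2 ≤ t) {n : ℕ} (hn : 1 ≤ n)
    (hnQ : n ≤ Q) {g : ℤ} (hg : Gm U Y < |(g : ℝ)|) : G (g * t / n) = 0 := by
  have hY0 := h.Y0
  have hZ0 := h.Z0
  have ht0 : 0 < t := by linarith
  have hn0 : (0 : ℝ) < n := by exact_mod_cast hn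
  apply h.ok.supp
  rw [abs_div, abs_mul, abs_of_pos ht0, abs_of_pos hn0, lt_div_iff₀ hn0]
  have hQr : (n : ℝ) ≤ Z * Y ^ 17 := le_trans (by exact_mod_cast hnQ) h.hQ
  have hU := h.ok.one_le
  unfold Gm at hg
  calc U * n ≤ U * (Z * Y ^ 17) := by gcongr
    _ = (2 * U * Y ^ 17) * (Z / 2) := by ring
    _ < |(g : ℝ)| * (Z / 2) := by gcongr
    _ ≤ |(g : ℝ)| * t := by gcongr

theorem Par.zero_F (h : Par G U c Y Z Q Dl C) {n : ℕ} (hn : 1 ≤ n)
    (hnQ : n ≤ Q) {g : ℤ} (hg : Gm U Y < |(g : ℝ)|) (d : ℕ) : Fz G Y Z (jx Y n) g d = 0 := by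
  have hY0 := h.Y0
  have hZ0 := h.Z0
  have hν0 := nu_pos Y (jx Y n)
  have hνn := h.nu_le hn
  have h1 : G (g * Z / nu Y (jx Y n)) = 0 := by
    apply h.ok.supp
    rw [abs_div, abs_mul, abs_of_pos hZ0, abs_of_pos hν0, lt_div_iff₀ hν0]
    have hQr : (n : ℝ) ≤ Z * Y ^ 17 := le_trans (by exact_mod_cast hnQ) h.hQ
    have hU := h.ok.one_le
    unfold Gm at hg
    have hgp : 0 < |(g : ℝ)| := lt_trans (by positivity) hg
    calc U * nu Y (jx Y n) ≤ U * (Z * Y ^ 17) := by gcongr; linarith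
      _ = (2 * U * Y ^ 17) * (Z / 2) := by ring
      _ < |(g : ℝ)| * (Z / 2) := by gcongr
      _ ≤ |(g : ℝ)| * Z := by gcongr; linarith
  unfold Fz KK
  rw [h1]
  simp

end

end Pool.Agent.LSPO
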